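import Pool.Agent.Run7.h731.HK.Norm

/-!
# Norms of the eigenvalues in the field of coefficients
-/

set_option autoImplicit false
set_option linter.unusedSectionVars false

namespace Pool.Agent.Run7.h731.HK

open NumberField IsDedekindDomain Filter Topology
open Pool.Agent.TH861.GL3 (PL qq)

variable {K : Type*} [Field K] [NumberField K] {S : Finset (HeightOneSpectrum (𝓞 K))}
variable {F : Type*} [Field F] [NumberField F] {E : Type*} [Field E] [NumberField E] [Algebra F E] {m : ℕ}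

theorem finrank_eq (e : Fin m ≃ (F →ₐ[ℚ] ℂ)) : Module.finrank ℚ F = m := by
  have h1 := AlgHom.card ℚ F ℂ
  rw [← h1, Fintype.card_congr e.symm, Fintype.card_fin]

theorem pos_of_equiv (e : Fin m ≃ (F →ₐ[ℚ] ℂ)) : 0 < m := by
  rw [← finrank_eq e]
  exact Module.finrank_pos

theorem norm_sq_eq {t s : E} {u : F} (hs : ∃ n : ℕ, 0 < n ∧ s ^ n = 1) (h : algebraMap F E u * s = t ^ 2)
    (hu : 0 ≤ ((Algebra.norm ℚ u : ℚ) : ℝ)) :
    ((Algebra.norm ℚ t : ℚ) : ℝ) ^ 2 = ((Algebra.norm ℚ u : ℚ) : ℝ) ^ Module.finrank F E := by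
  obtain ⟨n, hn, hs⟩ := hs
  have h1 : |((Algebra.norm ℚ s : ℚ) : ℝ)| = 1 := by
    have h2 : (Algebra.norm ℚ s) ^ n = 1 := by rw [← map_pow, hs, map_one]
    have h3 : |((Algebra.norm ℚ s : ℚ) : ℝ)| ^ n = 1 := by
      rw [← abs_pow]
      have : ((Algebra.norm ℚ s : ℚ) : ℝ) ^ n = 1 := by exact_mod_cast h2
      rw [this, abs_one]
    exact (pow_eq_one_iff_of_nonneg (abs_nonneg _) hn.ne').1 h3
  have h4 : (Algebra.norm ℚ t) ^ 2 = (Algebra.norm ℚ u) ^ Module.finrank F E * Algebra.norm ℚ s := by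
    rw [← map_pow, ← h, map_mul]
    congr 1
    rw [← Algebra.norm_norm (R := ℚ) (S := F) (A := E), Algebra.norm_algebraMap, map_pow]
  have h5 : ((Algebra.norm ℚ t : ℚ) : ℝ) ^ 2 =
      ((Algebra.norm ℚ u : ℚ) : ℝ) ^ Module.finrank F E * ((Algebra.norm ℚ s : ℚ) : ℝ) := by
    exact_mod_cast h4
  have h6 : |((Algebra.norm ℚ t : ℚ) : ℝ) ^ 2| =
      |((Algebra.norm ℚ u : ℚ) : ℝ) ^ Module.finrank F E * ((Algebra.norm ℚ s : ℚ) : ℝ)| := by rw [h5]
  rw [abs_mul, h1, mul_one, abs_of_nonneg (sq_nonneg _), abs_of_nonneg (pow_nonneg hu _)] at h6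
  exact h6

theorem norm_transfer (e : Fin m ≃ (F →ₐ[ℚ] ℂ)) {t s : E} {u : F} (hs : ∃ n : ℕ, 0 < n ∧ s ^ n = 1)
    (h : algebraMap F E u * s = t ^ 2) (hu : 0 ≤ ((Algebra.norm ℚ u : ℚ) : ℝ)) {z : ℝ} (hz : 0 ≤ z)
    (ht : Real.sqrt z ^ Module.finrank ℚ E ≤ |((Algebra.norm ℚ t : ℚ) : ℝ)|) :
    z ^ m ≤ ((Algebra.norm ℚ u : ℚ) : ℝ) := by
  have h1 : z ^ Module.finrank ℚ E ≤ ((Algebra.norm ℚ t : ℚ) : ℝ) ^ 2 := by
    have h2 := pow_le_pow_left₀ (by positivity) ht 2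
    rw [sq_abs, ← pow_mul, mul_comm, pow_mul, Real.sq_sqrt hz] at h2
    exact h2
  rw [norm_sq_eq hs h hu, ← Module.finrank_mul_finrank ℚ F E, finrank_eq e, pow_mul] at h1
  have : FiniteDimensional F E := Module.Finite.of_restrictScalars_finite ℚ F E
  exact le_of_pow_le_pow_left₀ (Module.finrank_pos (R := F) (M := E)).ne' hu h1

end Pool.Agent.Run7.h731.HK
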