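import Pool.Agent.Run7.h731.HK.Fam2

/-!
# The quadratic mean of the Hecke eigenvalues of several representations
-/

set_option autoImplicit false
set_option linter.unusedSectionVars false

namespace Pool.Agent.Run7.h731.HK

open NumberField IsDedekindDomain Filter Topology
open Pool.Agent.TH861.GL3 (PL qq)
open _root_.Run7.h911.RC (wt wt_nonneg wt_zero summable_wt logL Z Z_bdd Z_tendsto J tr tt rt tr_eq conj_tr
  rt_sq rt_sq' rt_large Unitary Tempered cf cf_tt cf_mul norm_sq)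

variable {K : Type*} [Field K] [NumberField K] {S : Finset (HeightOneSpectrum (𝓞 K))}
variable {G : Type*} [CommGroup G] [TopologicalSpace G] [IsTopologicalGroup G] [CompactSpace G]
  {m : ℕ} {X : Subgroup (G →ₜ* Circle)} {g : PL S → G} {α : Fin m → PL S → Fin 2 → ℂ}
variable [T2Space G] [MeasurableSpace G] [BorelSpace G]
variable (μ : MeasureTheory.Measure G) [μ.IsMulLeftInvariant] [MeasureTheory.IsProbabilityMeasure μ]
  [μ.OuterRegular] {U : Set G}

theorem sum_norm_sq (h : HeckeFamily X g α) (v : PL S) :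
    ∑ i, ‖α i v 0 + α i v 1‖ ^ 2 = (m : ℝ) + ∑ i, rt 0 (α i v) 1 := by
  rw [Finset.sum_congr rfl fun i _ => norm_sq (h.unitary i v), Finset.sum_add_distrib, Finset.sum_const,
    Finset.card_univ, Fintype.card_fin, nsmul_eq_mul, mul_one]

/-- **Large quadratic means.** -/
theorem mean_large (h : HeckeFamily X g α) (hU : MeasurableSet U) (hf : μ (frontier U) = 0)
    (h0 : 0 < μ.real U) (hm : 0 < m) {y : ℝ} (hy : 3 ≤ y) :
    RelLe g U (fun v => (m : ℝ) * y ≤ ∑ i, ‖α i v 0 + α i v 1‖ ^ 2)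
      (1 / (1 + (m : ℝ) * ((y - 1) ^ 2 + (y ^ 2 - 3 * y + 1) ^ 2))) := by
  have hmr : (0 : ℝ) < m := by exact_mod_cast hm
  set k : ℝ := (y - 1) ^ 2 + (y ^ 2 - 3 * y + 1) ^ 2 with hk
  have hk0 : 0 ≤ k := by rw [hk]; positivity
  have hk1 : 0 < 1 + (m : ℝ) * k := by positivity
  have hd : 0 ≤ y ^ 2 - 3 * y + 1 := by nlinarith
  refine set_bound μ h hU hf h0 (cf 1 (fun _ => y - 1) (fun _ => y ^ 2 - 3 * y + 1))
    (cf 1 (fun _ => y - 1) (fun _ => y ^ 2 - 3 * y + 1)) (fun v n => mul_self_nonneg _)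
    (M := (1 + (m : ℝ) * k) ^ 2) (by positivity) ?_ _ (fun v hv => ?_)
  · rw [cf_mul, Finset.sum_const, Finset.card_univ, Fintype.card_fin, nsmul_eq_mul]
    have : (y - 1) * (y - 1) + (y ^ 2 - 3 * y + 1) * (y ^ 2 - 3 * y + 1) = k := by
      rw [hk]; ring
    rw [this]
    field_simp
  · rw [cf_tt, ← pow_two]
    apply pow_le_pow_left₀ hk1.le
    rw [sum_norm_sq h] at hv
    set T : ℝ := ∑ i, rt 0 (α i v) 1 with hT
    have hT1 : (m : ℝ) * (y - 1) ≤ T := by linarith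
    have hB : ∑ i, rt 1 (α i v) 1 = ∑ i, rt 0 (α i v) 1 ^ 2 - T - m := by
      have e : ∀ i, rt 1 (α i v) 1 = rt 0 (α i v) 1 ^ 2 - rt 0 (α i v) 1 - 1 := fun i => by
        have := rt_sq (h.unitary i v) 1
        linarith
      rw [Finset.sum_congr rfl fun i _ => e i, Finset.sum_sub_distrib, Finset.sum_sub_distrib,
        Finset.sum_const, Finset.card_univ, Fintype.card_fin, nsmul_eq_mul, mul_one]
    have hCS : T ^ 2 ≤ (m : ℝ) * ∑ i, rt 0 (α i v) 1 ^ 2 := by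
      have := sq_sum_le_card_mul_sum_sq (s := (Finset.univ : Finset (Fin m))) (f := fun i => rt 0 (α i v) 1)
      rw [Finset.card_univ, Fintype.card_fin] at this
      exact this
    have hB1 : (m : ℝ) * (y ^ 2 - 3 * y + 1) ≤ ∑ i, rt 1 (α i v) 1 := by
      rw [hB]
      have h1 : (m : ℝ) * ((m : ℝ) * (y ^ 2 - 3 * y + 1)) ≤
          (m : ℝ) * (∑ i, rt 0 (α i v) 1 ^ 2 - T - m) := by
        have h2 : (m : ℝ) * ((m : ℝ) * (y ^ 2 - 3 * y + 1)) ≤ T ^ 2 - (m : ℝ) * T - (m : ℝ) * m := by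
          have h3 : 0 ≤ (T - (m : ℝ) * (y - 1)) * (T + (m : ℝ) * (y - 1) - m) := by
            refine mul_nonneg (by linarith) ?_
            nlinarith
          nlinarith
        calc (m : ℝ) * ((m : ℝ) * (y ^ 2 - 3 * y + 1)) ≤ T ^ 2 - (m : ℝ) * T - (m : ℝ) * m := h2
          _ ≤ (m : ℝ) * ∑ i, rt 0 (α i v) 1 ^ 2 - (m : ℝ) * T - (m : ℝ) * m := by linarith
          _ = (m : ℝ) * (∑ i, rt 0 (α i v) 1 ^ 2 - T - m) := by ring
      exact le_of_mul_le_mul_left h1 hmr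
    have hsum : ∑ i, ((y - 1) * rt 0 (α i v) 1 + (y ^ 2 - 3 * y + 1) * rt 1 (α i v) 1) =
        (y - 1) * T + (y ^ 2 - 3 * y + 1) * ∑ i, rt 1 (α i v) 1 := by
      rw [Finset.sum_add_distrib, ← Finset.mul_sum, ← Finset.mul_sum]
    rw [hsum, hk]
    have h4 : (y - 1) * ((m : ℝ) * (y - 1)) ≤ (y - 1) * T := mul_le_mul_of_nonneg_left hT1 (by linarith)
    have h5 := mul_le_mul_of_nonneg_left hB1 hd
    nlinarith

/-- the places at which the quadratic mean is far from `1` -/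
theorem mean_dev (h : HeckeFamily X g α) (hU : MeasurableSet U) (hf : μ (frontier U) = 0)
    (h0 : 0 < μ.real U) (hm : 0 < m) {δ : ℝ} (hδ : 0 < δ) {η : ℝ} (hη : η = 1 ∨ η = -1) :
    RelLe g U (fun v => (m : ℝ) * δ ≤ η * (∑ i, ‖α i v 0 + α i v 1‖ ^ 2 - m))
      (1 / (1 + (m : ℝ) * δ ^ 2)) := by
  have hmr : (0 : ℝ) < m := by exact_mod_cast hm
  have hη2 : η * η = 1 := by rcases hη with h1 | h1 <;> rw [h1] <;> norm_num
  have hk1 : 0 < 1 + (m : ℝ) * δ ^ 2 := by positivity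
  refine set_bound μ h hU hf h0 (cf 1 (fun _ => η * δ) (fun _ => 0))
    (cf 1 (fun _ => η * δ) (fun _ => 0)) (fun v n => mul_self_nonneg _)
    (M := (1 + (m : ℝ) * δ ^ 2) ^ 2) (by positivity) ?_ _ (fun v hv => ?_)
  · rw [cf_mul, Finset.sum_const, Finset.card_univ, Fintype.card_fin, nsmul_eq_mul]
    have : η * δ * (η * δ) + 0 * 0 = δ ^ 2 := by
      calc η * δ * (η * δ) + 0 * 0 = (η * η) * δ ^ 2 := by ring
        _ = δ ^ 2 := by rw [hη2, one_mul]
    rw [this]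
    field_simp
  · rw [cf_tt, ← pow_two]
    apply pow_le_pow_left₀ hk1.le
    rw [sum_norm_sq h, add_sub_cancel_left] at hv
    have hsum : ∑ i, (η * δ * rt 0 (α i v) 1 + 0 * rt 1 (α i v) 1) = δ * (η * ∑ i, rt 0 (α i v) 1) := by
      rw [Finset.mul_sum, Finset.mul_sum]
      refine Finset.sum_congr rfl fun i _ => by ring
    rw [hsum]
    nlinarith

end Pool.Agent.Run7.h731.HK
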