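import Pool.Agent.Run7.h731.HK.Sets

/-!
# Upper bounds for the density of exceptional sets in equidistributed classes
-/

set_option autoImplicit false
set_option linter.unusedSectionVars false

namespace Pool.Agent.Run7.h731.HK

open Filter Topology MeasureTheory

variable {G : Type*} [CommGroup G] [TopologicalSpace G] [IsTopologicalGroup G] [CompactSpace G]
  [T2Space G] [MeasurableSpace G] [BorelSpace G] {ι J : Type*} [Fintype J] {l : Filter ℝ}

/-- The functions `f j` of the place `v` and the exponent `pw k`, with the mean values `e j`, are uncorrelated with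
the nontrivial characters of `X`: for the weights `wt σ v k` and the total mass `Z σ` of the weights `wt σ v 0`. -/
structure Lin (X : Subgroup (G →ₜ* Circle)) (l : Filter ℝ) (wt : ℝ → ι → ℕ → ℝ) (Z : ℝ → ℝ) (pw : ℕ → ℕ)
    (g : ι → G) (f : J → ι → ℕ → ℝ) (e : J → ℝ) : Prop where
  separates : Separates X
  wt_nonneg : ∀ σ v k, 0 ≤ wt σ v k
  pos : ∀ᶠ σ in l, 0 < Z σ
  pw_zero : pw 0 = 1
  summable : ∀ j, ∀ᶠ σ in l, Summable fun x : ι × ℕ => f j x.1 x.2 * wt σ x.1 x.2
  coeff : ∀ χ ∈ X, ∀ j, Tendsto (fun σ => (∑' x : ι × ℕ,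
    (χ (g x.1) : ℂ) ^ pw x.2 * (f j x.1 x.2 * wt σ x.1 x.2 : ℝ)) / (Z σ : ℂ)) l
      (𝓝 (open scoped Classical in if χ = 1 then (e j : ℂ) else 0))

variable {μ : Measure G} [μ.IsMulLeftInvariant] [IsProbabilityMeasure μ] [μ.OuterRegular]
  {X : Subgroup (G →ₜ* Circle)} {wt : ℝ → ι → ℕ → ℝ} {Z : ℝ → ℝ} {pw : ℕ → ℕ} {g : ι → G}
  {f : J → ι → ℕ → ℝ} {e : J → ℝ}

/-- the combination of the functions -/
def comb (f : J → ι → ℕ → ℝ) (u : J → ℝ) (v : ι) (k : ℕ) : ℝ := ∑ j, u j * f j v k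

theorem norm_char_pow (χ : G →ₜ* Circle) (x : G) (n : ℕ) : ‖(χ x : ℂ) ^ n‖ = 1 := by
  rw [norm_pow, Circle.norm_coe, one_pow]

theorem Lin.equi (h : Lin X l wt Z pw g f e) (u : J → ℝ) (hu : ∀ v k, 0 ≤ comb f u v k) :
    Equi μ X l (fun σ (x : ι × ℕ) => comb f u x.1 x.2 * wt σ x.1 x.2 / Z σ) (fun x => g x.1 ^ pw x.2)
      (∑ j, u j * e j) := by
  have hs : ∀ᶠ σ in l, ∀ j, Summable fun x : ι × ℕ => f j x.1 x.2 * wt σ x.1 x.2 :=
    eventually_all.2 h.summable
  refine ⟨h.separates, ?_, fun χ hχ => ?_⟩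
  · filter_upwards [h.pos, hs] with σ h1 h2
    refine ⟨fun x => div_nonneg (mul_nonneg (hu _ _) (h.wt_nonneg _ _ _)) h1.le, Summable.div_const ?_ _⟩
    refine (summable_sum (s := Finset.univ) fun j _ => (h2 j).mul_left (u j)).congr fun x => ?_
    unfold comb
    rw [Finset.sum_mul]
    exact Finset.sum_congr rfl fun j _ => by ring
  · have h1 : Tendsto (fun σ => ∑ j, (u j : ℂ) * ((∑' x : ι × ℕ,
        (χ (g x.1) : ℂ) ^ pw x.2 * (f j x.1 x.2 * wt σ x.1 x.2 : ℝ)) / (Z σ : ℂ))) l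
        (𝓝 (∑ j, (u j : ℂ) * (open scoped Classical in if χ = 1 then (e j : ℂ) else 0))) :=
      tendsto_finsetSum _ fun j _ => (h.coeff χ hχ j).const_mul _
    have h2 : (∑ j, (u j : ℂ) * (open scoped Classical in if χ = 1 then (e j : ℂ) else 0)) =
        (open scoped Classical in if χ = 1 then ((∑ j, u j * e j : ℝ) : ℂ) else 0) := by
      by_cases hc : χ = 1
      · simp only [if_pos hc]
        push_cast
        rfl
      · simp only [if_neg hc, mul_zero, Finset.sum_const_zero]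
    rw [h2] at h1
    refine h1.congr' ?_
    filter_upwards [hs] with σ h3
    have h4 : ∀ j, Summable fun x : ι × ℕ => (u j : ℂ) *
        ((χ (g x.1) : ℂ) ^ pw x.2 * (f j x.1 x.2 * wt σ x.1 x.2 : ℝ)) := fun j => by
      refine Summable.mul_left _ (Summable.of_norm_bounded (h3 j).norm fun x => ?_)
      rw [norm_mul, norm_char_pow, one_mul, Complex.norm_real]
    have h5 : ∀ x : ι × ℕ, ((comb f u x.1 x.2 * wt σ x.1 x.2 / Z σ : ℝ) : ℂ) * (χ (g x.1 ^ pw x.2) : ℂ) =
        (∑ j, (u j : ℂ) * ((χ (g x.1) : ℂ) ^ pw x.2 * (f j x.1 x.2 * wt σ x.1 x.2 : ℝ))) / (Z σ : ℂ) := by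
      intro x
      rw [map_pow, Circle.coe_pow]
      unfold comb
      push_cast
      rw [Finset.sum_mul, Finset.sum_div, Finset.sum_mul, Finset.sum_div]
      refine Finset.sum_congr rfl fun j _ => ?_
      ring
    simp only [h5]
    rw [tsum_div_const, Summable.tsum_finsetSum fun j _ => h4 j, Finset.sum_div]
    refine Finset.sum_congr rfl fun j _ => ?_
    rw [tsum_mul_left]
    ring

/-- the sum over the places in the class `U` -/
noncomputable def ZU (wt : ℝ → ι → ℕ → ℝ) (g : ι → G) (U : Set G) (σ : ℝ) : ℝ :=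
  ∑' v, ind U (g v) * wt σ v 0

/-- the upper limit of the weighted sums over a class -/
theorem Lin.upper [l.NeBot] (h : Lin X l wt Z pw g f e) (u : J → ℝ) (hu : ∀ v k, 0 ≤ comb f u v k)
    (μ : Measure G) [μ.IsMulLeftInvariant] [IsProbabilityMeasure μ] [μ.OuterRegular]
    {U : Set G} (hU : MeasurableSet U) (hf : μ (frontier U) = 0) {ε : ℝ} (hε : 0 < ε) :
    ∀ᶠ σ in l, (Summable fun v => comb f u v 0 * (ind U (g v) * wt σ v 0)) ∧
      ∑' v, comb f u v 0 * (ind U (g v) * wt σ v 0) ≤ ((∑ j, u j * e j) * μ.real U + ε) * Z σ := by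
  have h1 := (h.equi (μ := μ) u hu).set hU hf
  have h2 : (∑ j, u j * e j) * μ.real U < (∑ j, u j * e j) * μ.real U + ε := by linarith
  have h3 := (h.equi (μ := μ) u hu).weights
  filter_upwards [h1.eventually_lt_const h2, h.pos, h3] with σ h4 h5 h6
  have h7 := summ_ind h6.1 h6.2 (g := fun x : ι × ℕ => g x.1 ^ pw x.2) U
  have hinj : Function.Injective fun v : ι => ((v, 0) : ι × ℕ) :=
    fun v w hvw => (Prod.ext_iff.1 hvw).1
  have e1 : ∀ v, comb f u v 0 * wt σ v 0 / Z σ * ind U (g v ^ pw 0) =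
      comb f u v 0 * (ind U (g v) * wt σ v 0) / Z σ := fun v => by
    rw [h.pw_zero, pow_one]
    ring
  have h8 : Summable fun v => comb f u v 0 * (ind U (g v) * wt σ v 0) / Z σ := by
    refine (h7.comp_injective hinj).congr fun v => ?_
    rw [← e1]
    rfl
  have h9 : Summable fun v => comb f u v 0 * (ind U (g v) * wt σ v 0) := by
    refine (h8.mul_right (Z σ)).congr fun v => ?_
    field_simp
  refine ⟨h9, ?_⟩
  have h10 : ∑' v, comb f u v 0 * (ind U (g v) * wt σ v 0) / Z σ ≤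
      ∑' x : ι × ℕ, comb f u x.1 x.2 * wt σ x.1 x.2 / Z σ * ind U (g x.1 ^ pw x.2) := by
    rw [h7.tsum_prod]
    refine Summable.tsum_le_tsum (fun v => ?_) h8 h7.prod
    rw [← e1]
    exact (h7.prod_factor v).le_tsum 0 fun k _ => mul_nonneg (h6.1 (v, k)) (ind_nonneg _ _)
  have h11 := h10.trans h4.le
  rw [tsum_div_const, div_le_iff₀ h5] at h11
  exact h11

/-- from a bound for the test function to a bound for the relative density -/
theorem Lin.density [l.NeBot] (h : Lin X l wt Z pw g f e) (u : J → ℝ) (hu : ∀ v k, 0 ≤ comb f u v k)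
    (μ : Measure G) [μ.IsMulLeftInvariant] [IsProbabilityMeasure μ] [μ.OuterRegular]
    {U : Set G} (hU : MeasurableSet U) (hf : μ (frontier U) = 0) (h0 : 0 < μ.real U)
    (hZ : Tendsto (fun σ => ZU wt g U σ / Z σ) l (𝓝 (μ.real U)))
    (hZs : ∀ᶠ σ in l, Summable fun v => ind U (g v) * wt σ v 0)
    {M : ℝ} (hM : 0 < M) (P : ι → Prop) [DecidablePred P] (hP : ∀ v, P v → M ≤ comb f u v 0)
    {ε : ℝ} (hε : 0 < ε) :
    ∀ᶠ σ in l, ∑' v, (if P v then ind U (g v) * wt σ v 0 else 0) ≤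
      ((∑ j, u j * e j) / M + ε) * ZU wt g U σ := by
  set c := ∑ j, u j * e j with hc
  have hc0 : 0 ≤ c := (h.equi (μ := μ) u hu).nonneg
  set r := μ.real U with hr
  -- choose the errors
  set δ : ℝ := ε * M * r / 4 with hδ
  have hδ0 : 0 < δ := by positivity
  set η : ℝ := min (r / 2) (ε * M * r / (4 * (c + ε * M))) with hη
  have hη0 : 0 < η := by
    rw [hη]
    have : 0 < c + ε * M := by positivity
    positivity
  have h1 := h.upper u hu μ hU hf hδ0
  have h2 := (Metric.tendsto_nhds.1 hZ) η hη0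
  filter_upwards [h1, h2, hZs, h.pos] with σ h3 h4 h5 h6
  have h7 : M * ∑' v, (if P v then ind U (g v) * wt σ v 0 else 0) ≤
      ∑' v, comb f u v 0 * (ind U (g v) * wt σ v 0) := by
    rw [← tsum_mul_left]
    refine Summable.tsum_le_tsum (fun v => ?_) ?_ h3.1
    · have hq : 0 ≤ ind U (g v) * wt σ v 0 := mul_nonneg (ind_nonneg _ _) (h.wt_nonneg _ _ _)
      split_ifs with hv
      · exact mul_le_mul_of_nonneg_right (hP v hv) hq
      · rw [mul_zero]
        exact mul_nonneg (hu v 0) hq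
    · refine Summable.mul_left _ (Summable.of_nonneg_of_le (fun v => ?_) (fun v => ?_) h5)
      · have hq : 0 ≤ ind U (g v) * wt σ v 0 := mul_nonneg (ind_nonneg _ _) (h.wt_nonneg _ _ _)
        split_ifs
        · exact hq
        · exact le_rfl
      · have hq : 0 ≤ ind U (g v) * wt σ v 0 := mul_nonneg (ind_nonneg _ _) (h.wt_nonneg _ _ _)
        split_ifs
        · exact le_rfl
        · exact hq
  have h8 := h7.trans h3.2
  -- `(c r + δ) Z ≤ M (c / M + ε) ZU`
  rw [Real.dist_eq] at h4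
  have h9 : (r - η) * Z σ ≤ ZU wt g U σ := by
    have := (abs_lt.1 h4).1
    rw [← le_div_iff₀ h6]
    linarith
  have h10 : (c * r + δ) * Z σ ≤ (c + ε * M) * ((r - η) * Z σ) := by
    rw [← mul_assoc]
    refine mul_le_mul_of_nonneg_right ?_ h6.le
    have h11 : (c + ε * M) * η ≤ ε * M * r / 4 := by
      have h12 : η ≤ ε * M * r / (4 * (c + ε * M)) := min_le_right _ _
      have h13 : 0 < c + ε * M := by positivity
      calc (c + ε * M) * η ≤ (c + ε * M) * (ε * M * r / (4 * (c + ε * M))) :=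
            mul_le_mul_of_nonneg_left h12 h13.le
        _ = ε * M * r / 4 := by field_simp
    have h14 : 0 < ε * M * r := by positivity
    rw [hδ]
    nlinarith
  have h11 : (c + ε * M) * ((r - η) * Z σ) ≤ (c + ε * M) * ZU wt g U σ :=
    mul_le_mul_of_nonneg_left h9 (by positivity)
  have h12 : M * ∑' v, (if P v then ind U (g v) * wt σ v 0 else 0) ≤
      M * ((c / M + ε) * ZU wt g U σ) := by
    have : M * ((c / M + ε) * ZU wt g U σ) = (c + ε * M) * ZU wt g U σ := by
      field_simp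
    rw [this]
    linarith
  exact le_of_mul_le_mul_left h12 hM

end Pool.Agent.Run7.h731.HK
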