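import Mathlib

/-!
# The logarithm of a function near a point where its exponential extends analytically without zero
-/

set_option autoImplicit false
set_option linter.unusedSectionVars false

namespace Pool.Agent.Run7.h731.HK

open Filter Topology

theorem int_const {r : ℝ → ℝ} {a b : ℝ} (hr : ContinuousOn r (Set.Ioo a b))
    (hi : ∀ x ∈ Set.Ioo a b, ∃ n : ℤ, r x = n) {x y : ℝ} (hx : x ∈ Set.Ioo a b) (hy : y ∈ Set.Ioo a b) :
    r x = r y := by
  have hp : IsPreconnected (r '' Set.Ioo a b) := isPreconnected_Ioo.image r hr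
  have ho := hp.ordConnected
  obtain ⟨n, hn⟩ := hi x hx
  obtain ⟨m, hm⟩ := hi y hy
  rcases lt_trichotomy n m with h | h | h
  · exfalso
    have h1 : ((n : ℝ) + 1 / 2) ∈ r '' Set.Ioo a b := by
      refine ho.out ⟨x, hx, hn⟩ ⟨y, hy, hm⟩ ⟨by linarith, ?_⟩
      have : (n : ℝ) + 1 ≤ m := by exact_mod_cast h
      linarith
    obtain ⟨z, hz, hz2⟩ := h1
    obtain ⟨k, hk⟩ := hi z hz
    rw [hk] at hz2
    have h2 : ((2 * k : ℤ) : ℝ) = ((2 * n + 1 : ℤ) : ℝ) := by push_cast; linarith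
    have h3 : 2 * k = 2 * n + 1 := by exact_mod_cast h2
    omega
  · rw [hn, hm, h]
  · exfalso
    have h1 : ((m : ℝ) + 1 / 2) ∈ r '' Set.Ioo a b := by
      refine ho.out ⟨y, hy, hm⟩ ⟨x, hx, hn⟩ ⟨by linarith, ?_⟩
      have : (m : ℝ) + 1 ≤ n := by exact_mod_cast h
      linarith
    obtain ⟨z, hz, hz2⟩ := h1
    obtain ⟨k, hk⟩ := hi z hz
    rw [hk] at hz2
    have h2 : ((2 * k : ℤ) : ℝ) = ((2 * m + 1 : ℤ) : ℝ) := by push_cast; linarith
    have h3 : 2 * k = 2 * m + 1 := by exact_mod_cast h2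
    omega

theorem exp_const {D : ℝ → ℂ} {a b : ℝ} (hD : ContinuousOn D (Set.Ioo a b)) {w : ℂ}
    (he : ∀ x ∈ Set.Ioo a b, Complex.exp (D x) = w) {x y : ℝ} (hx : x ∈ Set.Ioo a b)
    (hy : y ∈ Set.Ioo a b) : D x = D y := by
  have key : ∀ z ∈ Set.Ioo a b, ∃ n : ℤ, D z - D y = n * (2 * Real.pi * Complex.I) := by
    intro z hz
    have h1 : Complex.exp (D z - D y) = 1 := by
      rw [Complex.exp_sub, he z hz, he y hy, div_self]
      rw [← he y hy]
      exact Complex.exp_ne_zero _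
    exact Complex.exp_eq_one_iff.1 h1
  have hpi : (0 : ℝ) < 2 * Real.pi := by positivity
  set r : ℝ → ℝ := fun z => (D z - D y).im / (2 * Real.pi) with hr
  have hc : ContinuousOn r (Set.Ioo a b) := by
    refine ContinuousOn.div_const ?_ _
    exact Complex.continuous_im.comp_continuousOn (hD.sub continuousOn_const)
  have hi : ∀ z ∈ Set.Ioo a b, ∃ n : ℤ, r z = n := by
    intro z hz
    obtain ⟨n, hn⟩ := key z hz
    refine ⟨n, ?_⟩
    rw [hr]
    dsimp only
    rw [hn]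
    have : ((n : ℂ) * (2 * Real.pi * Complex.I)).im = n * (2 * Real.pi) := by
      have e : (n : ℂ) * (2 * Real.pi * Complex.I) = ((n * (2 * Real.pi) : ℝ) : ℂ) * Complex.I := by
        push_cast; ring
      rw [e, Complex.im_ofReal_mul, Complex.I_im, mul_one]
    rw [this, mul_div_assoc, div_self hpi.ne', mul_one]
  have h1 := int_const hc hi hx hy
  obtain ⟨n, hn⟩ := key x hx
  have h2 : r y = 0 := by
    rw [hr]
    simp
  rw [h2] at h1
  obtain h3 : (D x - D y).im = 0 := by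
    have h4 : (D x - D y).im / (2 * Real.pi) = 0 := h1
    rcases div_eq_zero_iff.1 h4 with h5 | h5
    · exact h5
    · exact absurd h5 hpi.ne'
  have e : (n : ℂ) * (2 * Real.pi * Complex.I) = ((n * (2 * Real.pi) : ℝ) : ℂ) * Complex.I := by
    push_cast; ring
  rw [hn, e, Complex.im_ofReal_mul, Complex.I_im, mul_one] at h3
  rw [e, h3] at hn
  simp only [Complex.ofReal_zero, zero_mul] at hn
  exact sub_eq_zero.1 hn

/-- a continuous logarithm of a function which is analytic and nonzero at `1` is bounded near `1` -/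
theorem clog_bdd {L : ℝ → ℂ} (hL : ContinuousOn L (Set.Ioi 1)) {F : ℂ → ℂ} (hF : AnalyticAt ℂ F 1)
    (h1 : F 1 ≠ 0) (hE : ∀ σ : ℝ, 1 < σ → F σ = Complex.exp (L σ)) :
    ∃ C : ℝ, ∀ᶠ σ : ℝ in 𝓝[>] 1, ‖L σ‖ ≤ C := by
  have hc0 : ∀ᶠ z in 𝓝 (1 : ℂ), ContinuousAt F z := hF.eventually_continuousAt
  have hq : ∀ᶠ z in 𝓝 (1 : ℂ), ‖F z / F 1 - 1‖ < 1 / 2 := by
    have h2 : ContinuousAt (fun z => F z / F 1 - 1) 1 :=
      (hF.continuousAt.div_const _).sub continuousAt_const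
    have h3 : Tendsto (fun z => ‖F z / F 1 - 1‖) (𝓝 1) (𝓝 ‖F 1 / F 1 - 1‖) := h2.norm
    rw [div_self h1, sub_self, norm_zero] at h3
    exact h3.eventually_lt_const (by norm_num)
  have hreal : Tendsto (fun σ : ℝ => (σ : ℂ)) (𝓝 1) (𝓝 1) := by
    have := Complex.continuous_ofReal.tendsto (1 : ℝ)
    rwa [Complex.ofReal_one] at this
  obtain ⟨δ, hδ, hball⟩ := Metric.eventually_nhds_iff.1 ((hreal.eventually hc0).and (hreal.eventually hq))
  have hin : ∀ σ ∈ Set.Ioo (1 : ℝ) (1 + δ), ContinuousAt F (σ : ℂ) ∧ ‖F (σ : ℂ) / F 1 - 1‖ < 1 / 2 := by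
    intro σ hσ
    apply hball
    rw [Real.dist_eq, abs_lt]
    constructor <;> linarith [hσ.1, hσ.2]
  set D : ℝ → ℂ := fun σ => L σ - Complex.log (F σ / F 1) with hD
  have hslit : ∀ σ ∈ Set.Ioo (1 : ℝ) (1 + δ), F (σ : ℂ) / F 1 ∈ Complex.slitPlane := by
    intro σ hσ
    left
    have h2 := (Complex.abs_re_le_norm (F (σ : ℂ) / F 1 - 1)).trans (hin σ hσ).2.le
    rw [Complex.sub_re, Complex.one_re, abs_le] at h2
    linarith [h2.1]
  have hDc : ContinuousOn D (Set.Ioo 1 (1 + δ)) := by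
    refine (hL.mono fun x hx => hx.1).sub ?_
    refine ContinuousOn.clog ?_ hslit
    intro σ hσ
    exact (((hin σ hσ).1.comp Complex.continuous_ofReal.continuousAt).div_const _).continuousWithinAt
  have hDe : ∀ σ ∈ Set.Ioo (1 : ℝ) (1 + δ), Complex.exp (D σ) = F 1 := by
    intro σ hσ
    have h0 : F (σ : ℂ) / F 1 ≠ 0 := Complex.slitPlane_ne_zero (hslit σ hσ)
    rw [hD]
    dsimp only
    rw [Complex.exp_sub, Complex.exp_log h0, ← hE σ hσ.1]
    have h3 : F (σ : ℂ) ≠ 0 := fun h => h0 (by rw [h, zero_div])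
    field_simp
  have hmid : 1 + δ / 2 ∈ Set.Ioo (1 : ℝ) (1 + δ) := ⟨by linarith, by linarith⟩
  have hlog : Tendsto (fun σ : ℝ => Complex.log (F (σ : ℂ) / F 1)) (𝓝[>] 1) (𝓝 0) := by
    have h2 : ContinuousAt (fun z => Complex.log (F z / F 1)) 1 := by
      refine ContinuousAt.clog (hF.continuousAt.div_const _) ?_
      rw [div_self h1]
      exact Complex.one_mem_slitPlane
    have h3 : Tendsto (fun z => Complex.log (F z / F 1)) (𝓝 1) (𝓝 (Complex.log (F 1 / F 1))) := h2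
    rw [div_self h1, Complex.log_one] at h3
    exact (h3.comp hreal).mono_left nhdsWithin_le_nhds
  refine ⟨‖D (1 + δ / 2)‖ + 1, ?_⟩
  have h4 := (tendsto_zero_iff_norm_tendsto_zero.1 hlog).eventually_lt_const (zero_lt_one)
  filter_upwards [h4, Ioo_mem_nhdsGT (show (1 : ℝ) < 1 + δ by linarith)] with σ h5 h6
  have h7 := exp_const hDc hDe h6 hmid
  have h8 : L σ = D (1 + δ / 2) + Complex.log (F σ / F 1) := by
    rw [← h7, hD]
    ring
  rw [h8]
  exact (norm_add_le _ _).trans (by linarith)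

end Pool.Agent.Run7.h731.HK
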