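import Pool.Agent.Run7.h911.RC3
import Pool.Agent.Run7.h731.HK.Log
import Pool.Agent.Run7.h731.HK.Engine

/-!
# Continuity of the logarithms of partial `L`-functions at real points
-/

set_option autoImplicit false
set_option linter.unusedSectionVars false

namespace Pool.Agent.Run7.h731.HK

open NumberField IsDedekindDomain Filter Topology
open Pool.Agent.TH861.GL3 (PL qq)
open Pool.Agent.H921R2.TatePole (Lam)
open _root_.Run7.h911.RC (wt wt_nonneg wt_zero summable_wt logL Z Z_bdd Z_tendsto)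

variable {K : Type*} [Field K] [NumberField K] {S : Finset (HeightOneSpectrum (𝓞 K))}

theorem logL_complex (f : PL S → ℕ → ℂ) (σ : ℝ) :
    logL f (σ : ℂ) = ∑' x : PL S × ℕ, f x.1 (x.2 + 1) * (wt σ x : ℂ) := by
  unfold logL
  refine tsum_congr fun x => ?_
  unfold wt
  push_cast
  rw [Complex.ofReal_cpow (Pool.Agent.TH861.GL3.qq_pos x.1.1).le]
  push_cast
  ring

theorem wt_anti {σ τ : ℝ} (h : σ ≤ τ) (x : PL S × ℕ) : wt τ x ≤ wt σ x := by
  unfold wt
  have hq := Pool.Agent.TH861.GL3.qq_pos x.1.1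
  refine div_le_div_of_nonneg_right ?_ (by positivity)
  refine pow_le_pow_left₀ (by positivity) ?_ _
  exact Real.rpow_le_rpow_of_exponent_le (Pool.Agent.TH861.GL3.one_lt_qq x.1.1).le (by linarith)

theorem wt_cont (x : PL S × ℕ) : Continuous fun σ : ℝ => (wt σ x : ℂ) := by
  unfold wt
  have hq := Pool.Agent.TH861.GL3.qq_pos x.1.1
  refine Complex.continuous_ofReal.comp ?_
  refine Continuous.div_const (Continuous.pow ?_ _) _
  exact Continuous.rpow continuous_const continuous_neg fun _ => Or.inl hq.ne'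

theorem logL_cont {f : PL S → ℕ → ℂ}
    (hf : ∀ σ : ℝ, 1 < σ → Summable fun x : PL S × ℕ => ‖f x.1 (x.2 + 1)‖ * wt σ x) :
    ContinuousOn (fun σ : ℝ => logL f (σ : ℂ)) (Set.Ioi 1) := by
  intro σ hσ
  have hσ1 : (1 : ℝ) < σ := hσ
  set τ : ℝ := (1 + σ) / 2 with hτ
  have hτ1 : 1 < τ := by rw [hτ]; linarith
  have hτ2 : τ < σ := by rw [hτ]; linarith
  have h1 : ContinuousOn (fun ρ : ℝ => ∑' x : PL S × ℕ, f x.1 (x.2 + 1) * (wt ρ x : ℂ)) (Set.Ioi τ) := by
    refine continuousOn_tsum (fun x => (continuous_const.mul (wt_cont x)).continuousOn) (hf τ hτ1) ?_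
    intro x ρ hρ
    rw [norm_mul, Complex.norm_real, Real.norm_of_nonneg (wt_nonneg ρ x)]
    exact mul_le_mul_of_nonneg_left (wt_anti (le_of_lt hρ) x) (norm_nonneg _)
  have h2 : ContinuousAt (fun ρ : ℝ => logL f (ρ : ℂ)) σ := by
    simp only [logL_complex]
    exact h1.continuousAt (Ioi_mem_nhds hτ2)
  exact h2.continuousWithinAt

/-- the value of the logarithm near `1`, for a pole of order `ε` (`0` or `1`) -/
theorem logL_bdd {f : PL S → ℕ → ℂ}
    (hf : ∀ σ : ℝ, 1 < σ → Summable fun x : PL S × ℕ => ‖f x.1 (x.2 + 1)‖ * wt σ x) (P : Prop) [Decidable P]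
    (hF : ∃ F : ℂ → ℂ, AnalyticAt ℂ F 1 ∧ F 1 ≠ 0 ∧ ∀ s : ℂ, 1 < s.re →
      F s = (if P then s - 1 else 1) * Complex.exp (logL f s)) :
    ∃ C : ℝ, ∀ᶠ σ : ℝ in 𝓝[>] 1, ‖logL f (σ : ℂ) - (if P then (Z S σ : ℂ) else 0)‖ ≤ C := by
  obtain ⟨F, hF1, hF2, hE⟩ := hF
  by_cases hP : P
  · simp only [if_pos hP] at hE ⊢
    have hcont : ContinuousOn (fun σ : ℝ => logL f (σ : ℂ) - ((Lam σ : ℝ) : ℂ)) (Set.Ioi 1) := by
      refine (logL_cont hf).sub ?_
      refine Complex.continuous_ofReal.comp_continuousOn ?_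
      unfold Lam
      refine ContinuousOn.log ?_ ?_
      · refine continuousOn_const.div (continuousOn_id.sub continuousOn_const) ?_
        intro x hx
        have : (1 : ℝ) < x := hx
        exact (sub_pos.2 this).ne'
      · intro x hx
        have : (1 : ℝ) < x := hx
        exact (div_pos one_pos (sub_pos.2 this)).ne'
    obtain ⟨C, hC⟩ := clog_bdd hcont hF1 hF2 (fun σ hσ => by
      rw [hE (σ : ℂ) (by simpa using hσ), Complex.exp_sub]
      have h1 : Complex.exp ((Lam σ : ℝ) : ℂ) = ((1 / (σ - 1) : ℝ) : ℂ) := by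
        rw [← Complex.ofReal_exp]
        unfold Lam
        rw [Real.exp_log (div_pos one_pos (sub_pos.2 hσ))]
      rw [h1]
      have h2 : (σ : ℂ) - 1 ≠ 0 := by
        have : (σ - 1 : ℝ) ≠ 0 := (sub_pos.2 hσ).ne'
        exact_mod_cast this
      push_cast
      field_simp)
    obtain ⟨C', hC'⟩ := Z_bdd S
    refine ⟨C + C', ?_⟩
    filter_upwards [hC, hC'] with σ h1 h2
    have e : logL f (σ : ℂ) - (Z S σ : ℂ) =
        (logL f (σ : ℂ) - ((Lam σ : ℝ) : ℂ)) - ((Z S σ - Lam σ : ℝ) : ℂ) := by push_cast; ring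
    rw [e]
    refine (norm_sub_le _ _).trans (add_le_add h1 ?_)
    rw [Complex.norm_real, Real.norm_eq_abs]
    exact h2
  · simp only [if_neg hP, one_mul, sub_zero] at hE ⊢
    exact clog_bdd (logL_cont hf) hF1 hF2 fun σ hσ => hE (σ : ℂ) (by simpa using hσ)

/-- from a bounded difference to a limit -/
theorem ratio_limit {A : ℝ → ℂ} (P : Prop) [Decidable P]
    (h : ∃ C : ℝ, ∀ᶠ σ : ℝ in 𝓝[>] 1, ‖A σ - (if P then (Z S σ : ℂ) else 0)‖ ≤ C) :
    Tendsto (fun σ => A σ / (Z S σ : ℂ)) (𝓝[>] 1) (𝓝 (if P then 1 else 0)) := by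
  obtain ⟨C, hC⟩ := h
  have hZ := Z_tendsto S
  rw [tendsto_iff_norm_sub_tendsto_zero]
  have h1 : Tendsto (fun σ => C / Z S σ) (𝓝[>] (1 : ℝ)) (𝓝 0) := hZ.const_div_atTop C
  refine squeeze_zero' (Eventually.of_forall fun _ => norm_nonneg _) ?_ h1
  filter_upwards [hC, hZ.eventually_gt_atTop 0] with σ h2 h3
  have h4 : (Z S σ : ℂ) ≠ 0 := by exact_mod_cast h3.ne'
  have e : A σ / (Z S σ : ℂ) - (if P then 1 else 0) =
      (A σ - (if P then (Z S σ : ℂ) else 0)) / (Z S σ : ℂ) := by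
    split_ifs
    · field_simp
    · simp
  rw [e, norm_div, Complex.norm_real, Real.norm_of_nonneg h3.le]
  exact div_le_div_of_nonneg_right h2 h3.le

/-- the prime powers in a class are negligible -/
theorem ZU_limit {G : Type*} [CommGroup G] [TopologicalSpace G] [IsTopologicalGroup G] [CompactSpace G]
    [T2Space G] [MeasurableSpace G] [BorelSpace G] {X : Subgroup (G →ₜ* Circle)} (hX : Separates X)
    {g : PL S → G} (hchi : ∀ χ ∈ X, ∃ F : ℂ → ℂ, AnalyticAt ℂ F 1 ∧ F 1 ≠ 0 ∧ ∀ s : ℂ, 1 < s.re →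
      F s = (open scoped Classical in if χ = 1 then s - 1 else 1) *
        Complex.exp (logL (fun v k => (χ (g v) : ℂ) ^ k) s))
    (μ : MeasureTheory.Measure G) [μ.IsMulLeftInvariant] [MeasureTheory.IsProbabilityMeasure μ]
    [μ.OuterRegular] {U : Set G} (hU : MeasurableSet U) (hf : μ (frontier U) = 0) :
    Tendsto (fun σ => ZU (fun σ (v : PL S) k => wt σ (v, k)) g U σ / Z S σ) (𝓝[>] 1) (𝓝 (μ.real U)) := by
  classical
  have hZ := Z_tendsto S
  have hE : Equi μ X (𝓝[>] (1 : ℝ)) (fun σ (v : PL S) => wt σ (v, 0) / Z S σ) g 1 := by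
    refine ⟨hX, ?_, fun χ hχ => ?_⟩
    · filter_upwards [hZ.eventually_gt_atTop 0, self_mem_nhdsWithin] with σ h1 h2
      refine ⟨fun v => div_nonneg (wt_nonneg _ _) h1.le, Summable.div_const ?_ _⟩
      refine (Pool.Agent.TH861.GL3.summable_qq (S := S) (σ := σ) h2).congr fun v => (wt_zero σ v).symm
    · have hsum : ∀ σ : ℝ, 1 < σ → Summable fun x : PL S × ℕ => ‖(χ (g x.1) : ℂ) ^ (x.2 + 1)‖ * wt σ x := by
        intro σ hσ
        refine (summable_wt (S := S) hσ).congr fun x => ?_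
        rw [norm_char_pow, one_mul]
      have h1 := ratio_limit (S := S) (χ = 1) (logL_bdd (f := fun v k => (χ (g v) : ℂ) ^ k) hsum (χ = 1) (hchi χ hχ))
      -- remove the prime powers
      obtain ⟨C, hC⟩ := _root_.Run7.h911.RC.wt_bound S
      have h2 : Tendsto (fun σ : ℝ => (logL (fun v k => (χ (g v) : ℂ) ^ k) (σ : ℂ) -
          ∑' v : PL S, (wt σ (v, 0) : ℂ) * (χ (g v) : ℂ)) / (Z S σ : ℂ)) (𝓝[>] (1 : ℝ)) (𝓝 0) := by
        rw [tendsto_zero_iff_norm_tendsto_zero]
        have h3 : Tendsto (fun σ => C / Z S σ) (𝓝[>] (1 : ℝ)) (𝓝 0) := hZ.const_div_atTop C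
        refine squeeze_zero' (Eventually.of_forall fun _ => norm_nonneg _) ?_ h3
        filter_upwards [hZ.eventually_gt_atTop 0, self_mem_nhdsWithin] with σ h4 h5
        have hσ : (1 : ℝ) < σ := h5
        rw [norm_div, Complex.norm_real, Real.norm_of_nonneg h4.le]
        refine div_le_div_of_nonneg_right ?_ h4.le
        have hs := summable_wt (S := S) hσ
        have hsc : Summable fun x : PL S × ℕ => (χ (g x.1) : ℂ) ^ (x.2 + 1) * (wt σ x : ℂ) := by
          refine Summable.of_norm_bounded hs fun x => ?_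
          rw [norm_mul, norm_char_pow, one_mul, Complex.norm_real, Real.norm_of_nonneg (wt_nonneg _ _)]
        have hZs := Pool.Agent.TH861.GL3.summable_qq (S := S) (σ := σ) hσ
        have hs0 : Summable fun v : PL S => wt σ (v, 0) := hZs.congr fun v => (wt_zero σ v).symm
        have hsc0 : Summable fun v : PL S => (wt σ (v, 0) : ℂ) * (χ (g v) : ℂ) := by
          refine Summable.of_norm_bounded hs0 fun v => ?_
          rw [norm_mul, Circle.norm_coe, mul_one, Complex.norm_real, Real.norm_of_nonneg (wt_nonneg _ _)]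
        rw [logL_complex, hsc.tsum_prod, ← hsc.prod.tsum_sub hsc0]
        have h6 : ∀ v : PL S, ‖(∑' k : ℕ, (χ (g v) : ℂ) ^ (k + 1) * (wt σ (v, k) : ℂ)) -
            (wt σ (v, 0) : ℂ) * (χ (g v) : ℂ)‖ ≤ (∑' k : ℕ, wt σ (v, k)) - wt σ (v, 0) := by
          intro v
          have h7 := hsc.prod_factor v
          have h8 := hs.prod_factor v
          rw [h7.tsum_eq_zero_add, h8.tsum_eq_zero_add]
          have h9 : (χ (g v) : ℂ) ^ (0 + 1) * (wt σ (v, 0) : ℂ) +
              ∑' k : ℕ, (χ (g v) : ℂ) ^ (k + 1 + 1) * (wt σ (v, k + 1) : ℂ) -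
              (wt σ (v, 0) : ℂ) * (χ (g v) : ℂ) =
              ∑' k : ℕ, (χ (g v) : ℂ) ^ (k + 1 + 1) * (wt σ (v, k + 1) : ℂ) := by ring
          rw [h9]
          have h10 : ∀ k : ℕ, ‖(χ (g v) : ℂ) ^ (k + 1 + 1) * (wt σ (v, k + 1) : ℂ)‖ = wt σ (v, k + 1) := by
            intro k
            rw [norm_mul, norm_char_pow, one_mul, Complex.norm_real, Real.norm_of_nonneg (wt_nonneg _ _)]
          have h11 : Summable fun k : ℕ => ‖(χ (g v) : ℂ) ^ (k + 1 + 1) * (wt σ (v, k + 1) : ℂ)‖ :=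
            ((summable_nat_add_iff 1).2 h8).congr fun k => (h10 k).symm
          refine (norm_tsum_le_tsum_norm h11).trans ?_
          rw [tsum_congr h10]
          linarith
        have h12 : Summable fun v : PL S => (∑' k : ℕ, wt σ (v, k)) - wt σ (v, 0) := hs.prod.sub hs0
        have h13 := Summable.of_nonneg_of_le (fun v => norm_nonneg _) h6 h12
        refine (norm_tsum_le_tsum_norm h13).trans ?_
        refine (Summable.tsum_le_tsum h6 h13 h12).trans ?_
        rw [hs.prod.tsum_sub hs0, ← hs.tsum_prod]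
        have h14 : ∑' v : PL S, wt σ (v, 0) = Z S σ := tsum_congr fun v => wt_zero σ v
        rw [h14]
        exact (le_abs_self _).trans (hC σ hσ)
      have h3 := h1.sub h2
      rw [sub_zero] at h3
      have h4 : (if χ = 1 then (1 : ℂ) else 0) = (if χ = 1 then ((1 : ℝ) : ℂ) else 0) := by
        rw [Complex.ofReal_one]
      rw [h4] at h3
      refine h3.congr fun σ => ?_
      rw [← sub_div, sub_sub_cancel, ← tsum_div_const]
      refine tsum_congr fun v => ?_
      push_cast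
      ring
  have h1 := hE.set hU hf
  rw [one_mul] at h1
  refine h1.congr fun σ => ?_
  unfold ZU
  rw [← tsum_div_const]
  refine tsum_congr fun v => ?_
  ring

end Pool.Agent.Run7.h731.HK
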