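import Mathlib

/-!
# Equidistribution of weighted sequences in compact abelian groups
-/

set_option autoImplicit false
set_option linter.unusedSectionVars false

namespace Pool.Agent.Run7.h731.HK

open Filter Topology MeasureTheory

section Chars

variable {G : Type*} [CommGroup G] [TopologicalSpace G] [IsTopologicalGroup G] [CompactSpace G]

/-- a character as a continuous function -/
noncomputable def ch (χ : G →ₜ* Circle) : C(G, ℂ) :=
  ⟨fun x => (χ x : ℂ), continuous_subtype_val.comp χ.continuous_toFun⟩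

theorem ch_apply (χ : G →ₜ* Circle) (x : G) : ch χ x = (χ x : ℂ) := rfl

theorem ch_one : ch (1 : G →ₜ* Circle) = 1 := by
  ext x
  rw [ch_apply]
  simp

theorem ch_mul (χ ψ : G →ₜ* Circle) : ch (χ * ψ) = ch χ * ch ψ := by
  ext x
  rw [ContinuousMap.mul_apply, ch_apply, ch_apply, ch_apply]
  simp

theorem ch_inv (χ : G →ₜ* Circle) : ch χ⁻¹ = star (ch χ) := by
  ext x
  rw [ContinuousMap.star_apply, ch_apply, ch_apply]
  have h1 : χ⁻¹ x = (χ x)⁻¹ := rfl
  rw [h1, Circle.coe_inv_eq_conj]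
  rfl

/-- the algebra generated by a group of characters -/
noncomputable def alg (X : Subgroup (G →ₜ* Circle)) : StarSubalgebra ℂ C(G, ℂ) where
  toSubalgebra := Algebra.adjoin ℂ (ch '' (X : Set (G →ₜ* Circle)))
  star_mem' := by
    change Algebra.adjoin ℂ (ch '' (X : Set (G →ₜ* Circle))) ≤
      star (Algebra.adjoin ℂ (ch '' (X : Set (G →ₜ* Circle))))
    refine Algebra.adjoin_le ?_
    rintro - ⟨χ, hχ, rfl⟩
    refine Algebra.subset_adjoin ⟨χ⁻¹, X.inv_mem hχ, ?_⟩
    exact ch_inv χ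

theorem alg_span (X : Subgroup (G →ₜ* Circle)) :
    Subalgebra.toSubmodule (alg X).toSubalgebra =
      Submodule.span ℂ (ch '' (X : Set (G →ₜ* Circle))) := by
  apply Algebra.adjoin_eq_span_of_subset
  refine Set.Subset.trans ?_ Submodule.subset_span
  intro x hx
  refine Submonoid.closure_induction (fun _ => id) ⟨1, X.one_mem, ch_one⟩ ?_ hx
  rintro - - - - ⟨m, hm, rfl⟩ ⟨n, hn, rfl⟩
  exact ⟨m * n, X.mul_mem hm hn, ch_mul m n⟩

/-- the characters of `X` separate the points -/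
def Separates (X : Subgroup (G →ₜ* Circle)) : Prop := ∀ x y : G, x ≠ y → ∃ χ ∈ X, χ x ≠ χ y

theorem alg_top {X : Subgroup (G →ₜ* Circle)} (h : Separates X) :
    (alg X).topologicalClosure = ⊤ := by
  apply ContinuousMap.starSubalgebra_topologicalClosure_eq_top_of_separatesPoints
  intro x y hxy
  obtain ⟨χ, hχ, hne⟩ := h x y hxy
  refine ⟨_, ⟨ch χ, Algebra.subset_adjoin ⟨χ, hχ, rfl⟩, rfl⟩, ?_⟩
  simp only [ch_apply]
  intro h1
  exact hne (Subtype.ext h1)

theorem approx {X : Subgroup (G →ₜ* Circle)} (h : Separates X) (f : C(G, ℂ)) {ε : ℝ} (hε : 0 < ε) :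
    ∃ p ∈ Submodule.span ℂ (ch '' (X : Set (G →ₜ* Circle))), ∀ x, ‖f x - p x‖ < ε := by
  have h1 : f ∈ (alg X).topologicalClosure := by rw [alg_top h]; trivial
  have h2 : f ∈ closure ((alg X : StarSubalgebra ℂ C(G, ℂ)) : Set C(G, ℂ)) := by
    rw [← StarSubalgebra.topologicalClosure_coe]
    exact h1
  obtain ⟨p, hp, hd⟩ := Metric.mem_closure_iff.1 h2 ε hε
  refine ⟨p, ?_, fun x => ?_⟩
  · rw [← alg_span]
    exact hp
  · rw [dist_eq_norm] at hd
    exact (ContinuousMap.norm_coe_le_norm (f - p) x).trans_lt hd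

end Chars

section Haar

variable {G : Type*} [CommGroup G] [TopologicalSpace G] [IsTopologicalGroup G] [CompactSpace G]
  [MeasurableSpace G] [BorelSpace G]

theorem int_ch (μ : Measure G) [μ.IsMulLeftInvariant] {χ : G →ₜ* Circle} (h : χ ≠ 1) :
    ∫ x, (χ x : ℂ) ∂μ = 0 := by
  obtain ⟨a, ha⟩ : ∃ a, χ a ≠ 1 := by
    by_contra hc
    push Not at hc
    exact h (ContinuousMonoidHom.ext fun x => hc x)
  have h1 : ∫ x, (χ (a * x) : ℂ) ∂μ = ∫ x, (χ x : ℂ) ∂μ :=
    integral_mul_left_eq_self (fun x => (χ x : ℂ)) a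
  have h2 : ∫ x, (χ (a * x) : ℂ) ∂μ = (χ a : ℂ) * ∫ x, (χ x : ℂ) ∂μ := by
    rw [← integral_const_mul]
    congr 1
    ext x
    rw [map_mul, Circle.coe_mul]
  rw [h2] at h1
  have h3 : ((χ a : ℂ) - 1) * ∫ x, (χ x : ℂ) ∂μ = 0 := by rw [sub_mul, h1, one_mul, sub_self]
  rcases mul_eq_zero.1 h3 with h4 | h4
  · exfalso
    apply ha
    apply Subtype.ext
    exact sub_eq_zero.1 h4
  · exact h4

variable {ι : Type*} {l : Filter ℝ}

/-- nonnegative summable weights -/
def Wts (l : Filter ℝ) (w : ℝ → ι → ℝ) : Prop :=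
  ∀ᶠ σ in l, (∀ i, 0 ≤ w σ i) ∧ Summable (w σ)

theorem bdd_cont {G : Type*} [TopologicalSpace G] [CompactSpace G] (f : C(G, ℂ)) (x : G) : ‖f x‖ ≤ ‖f‖ :=
  ContinuousMap.norm_coe_le_norm f x

theorem summ {w : ι → ℝ} (h0 : ∀ i, 0 ≤ w i) (hs : Summable w) (g : ι → G) (f : C(G, ℂ)) :
    Summable fun i => (w i : ℂ) * f (g i) := by
  refine Summable.of_norm_bounded (hs.mul_right ‖f‖) fun i => ?_
  rw [norm_mul, Complex.norm_real, Real.norm_of_nonneg (h0 i)]
  exact mul_le_mul_of_nonneg_left (bdd_cont f _) (h0 i)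

/-- **Equidistribution (continuous functions).** -/
theorem equi (μ : Measure G) [μ.IsMulLeftInvariant] [IsProbabilityMeasure μ]
    {X : Subgroup (G →ₜ* Circle)} (hX : Separates X) {w : ℝ → ι → ℝ} (hw : Wts l w) {g : ι → G} {c : ℝ}
    (h : ∀ χ ∈ X, Tendsto (fun σ => ∑' i, (w σ i : ℂ) * (χ (g i) : ℂ)) l
      (𝓝 (open scoped Classical in if χ = 1 then (c : ℂ) else 0)))
    (f : C(G, ℂ)) :
    Tendsto (fun σ => ∑' i, (w σ i : ℂ) * f (g i)) l (𝓝 (c * ∫ x, f x ∂μ)) := by
  classical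
  -- the span
  have hspan : ∀ p ∈ Submodule.span ℂ (ch '' (X : Set (G →ₜ* Circle))),
      Tendsto (fun σ => ∑' i, (w σ i : ℂ) * p (g i)) l (𝓝 (c * ∫ x, p x ∂μ)) := by
    intro p hp
    induction hp using Submodule.span_induction with
    | mem p hp =>
      obtain ⟨χ, hχ, rfl⟩ := hp
      have h1 := h χ hχ
      simp only [ch_apply]
      by_cases hc : χ = 1
      · subst hc
        simp only [if_true] at h1
        have h2 : ∫ x, ((1 : G →ₜ* Circle) x : ℂ) ∂μ = 1 := by
          simp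
        rw [h2, mul_one]
        exact h1
      · rw [int_ch μ hc, mul_zero]
        rw [if_neg hc] at h1
        exact h1
    | zero =>
      have h1 : ∀ x : G, (0 : C(G, ℂ)) x = 0 := fun x => rfl
      simp only [h1, mul_zero, tsum_zero, integral_zero]
      exact tendsto_const_nhds
    | add p q _ _ hp hq =>
      have h1 := hp.add hq
      have h2 : (c : ℂ) * ∫ x, (p + q) x ∂μ = c * ∫ x, p x ∂μ + c * ∫ x, q x ∂μ := by
        rw [← mul_add, ← integral_add]
        · rfl
        · exact (p.continuous.integrable_of_hasCompactSupport (HasCompactSupport.of_compactSpace _))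
        · exact (q.continuous.integrable_of_hasCompactSupport (HasCompactSupport.of_compactSpace _))
      rw [h2]
      refine h1.congr' ?_
      filter_upwards [hw] with σ hσ
      rw [← (summ hσ.1 hσ.2 g p).tsum_add (summ hσ.1 hσ.2 g q)]
      refine tsum_congr fun i => ?_
      rw [ContinuousMap.add_apply, mul_add]
    | smul a p _ hp =>
      have h1 := hp.const_mul a
      have h2 : (c : ℂ) * ∫ x, (a • p) x ∂μ = a * (c * ∫ x, p x ∂μ) := by
        simp only [ContinuousMap.smul_apply, smul_eq_mul]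
        rw [integral_const_mul]
        ring
      rw [h2]
      refine h1.congr fun σ => ?_
      rw [← tsum_mul_left]
      refine tsum_congr fun i => ?_
      rw [ContinuousMap.smul_apply, smul_eq_mul]
      ring
  -- total mass
  have hmass : Tendsto (fun σ => ∑' i, w σ i) l (𝓝 c) := by
    have h1 := h 1 X.one_mem
    simp only [if_true] at h1
    have h2 := (Complex.continuous_re.tendsto _).comp h1
    simp only [Complex.ofReal_re] at h2
    refine h2.congr fun σ => ?_
    simp only [Function.comp]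
    have : ∀ i, (w σ i : ℂ) * (((1 : G →ₜ* Circle) (g i) : Circle) : ℂ) = ((w σ i : ℝ) : ℂ) := fun i => by simp
    simp only [this]
    rw [← Complex.ofReal_tsum, Complex.ofReal_re]
  rw [Metric.tendsto_nhds]
  intro ε hε
  set δ : ℝ := ε / (2 * |c| + 4) with hδ
  have hc0 := abs_nonneg c
  have hδ0 : 0 < δ := by positivity
  obtain ⟨p, hp, hd⟩ := approx hX f hδ0
  have h1 := (Metric.tendsto_nhds.1 (hspan p hp)) δ hδ0
  have h2 := (Metric.tendsto_nhds.1 hmass) 1 one_pos
  filter_upwards [h1, h2, hw] with σ h3 h4 h5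
  have e1 : ‖∑' i, (w σ i : ℂ) * f (g i) - ∑' i, (w σ i : ℂ) * p (g i)‖ ≤ δ * (|c| + 1) := by
    rw [← (summ h5.1 h5.2 g f).tsum_sub (summ h5.1 h5.2 g p)]
    have h6 : ∀ i, ‖(w σ i : ℂ) * f (g i) - (w σ i : ℂ) * p (g i)‖ ≤ w σ i * δ := fun i => by
      rw [← mul_sub, norm_mul, Complex.norm_real, Real.norm_of_nonneg (h5.1 i)]
      exact mul_le_mul_of_nonneg_left (hd _).le (h5.1 i)
    have h7 : Summable fun i => ‖(w σ i : ℂ) * f (g i) - (w σ i : ℂ) * p (g i)‖ :=
      Summable.of_nonneg_of_le (fun i => norm_nonneg _) h6 (h5.2.mul_right δ)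
    refine (norm_tsum_le_tsum_norm h7).trans ?_
    refine (Summable.tsum_le_tsum h6 h7 (h5.2.mul_right δ)).trans ?_
    rw [tsum_mul_right, mul_comm]
    refine mul_le_mul_of_nonneg_left ?_ hδ0.le
    rw [Real.dist_eq] at h4
    have h8 := (abs_lt.1 h4).2
    have h9 := le_abs_self c
    linarith
  have e2 : ‖(c : ℂ) * ∫ x, p x ∂μ - c * ∫ x, f x ∂μ‖ ≤ |c| * δ := by
    rw [← mul_sub, norm_mul, Complex.norm_real, Real.norm_eq_abs, ← integral_sub]
    · refine mul_le_mul_of_nonneg_left ?_ hc0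
      refine (norm_integral_le_of_norm_le_const (C := δ) (Eventually.of_forall fun x => ?_)).trans ?_
      · rw [norm_sub_rev]
        exact (hd x).le
      · simp
    · exact (p.continuous.integrable_of_hasCompactSupport (HasCompactSupport.of_compactSpace _))
    · exact (f.continuous.integrable_of_hasCompactSupport (HasCompactSupport.of_compactSpace _))
  rw [dist_eq_norm] at h3 ⊢
  have e3 : ∑' i, (w σ i : ℂ) * f (g i) - c * ∫ x, f x ∂μ =
      (∑' i, (w σ i : ℂ) * f (g i) - ∑' i, (w σ i : ℂ) * p (g i)) +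
      ((∑' i, (w σ i : ℂ) * p (g i) - c * ∫ x, p x ∂μ) + (c * ∫ x, p x ∂μ - c * ∫ x, f x ∂μ)) := by ring
  rw [e3]
  refine (norm_add_le _ _).trans_lt ?_
  refine (add_le_add e1 (norm_add_le _ _)).trans_lt ?_
  have e4 : δ * (2 * |c| + 4) = ε := by
    rw [hδ]
    field_simp
  nlinarith

end Haar

end Pool.Agent.Run7.h731.HK
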