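import Pool.Agent.Run7.h731.HK.Dir

/-!
# Several representations of `GL(2)` in the classes given by Hecke characters
-/

set_option autoImplicit false
set_option linter.unusedSectionVars false

namespace Pool.Agent.Run7.h731.HK

open NumberField IsDedekindDomain Filter Topology
open Pool.Agent.TH861.GL3 (PL qq)
open _root_.Run7.h911.RC (wt wt_nonneg wt_zero summable_wt logL Z Z_bdd Z_tendsto J tr tt rt tr_eq conj_tr
  rt_sq rt_sq' rt_large Unitary Tempered cf cf_tt cf_mul norm_sq)

variable {K : Type*} [Field K] [NumberField K] {S : Finset (HeightOneSpectrum (𝓞 K))}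
variable {G : Type*} [CommGroup G] [TopologicalSpace G] [IsTopologicalGroup G] [CompactSpace G]
  {m : ℕ}

/-- the trace of the `k`-th power of the Satake parameter at `v` of the trivial representation (`none`), of `Ad π_i`
(`some (i, 0)`) and of `A⁴ π_i` (`some (i, 1)`) -/
noncomputable def ptr (α : Fin m → PL S → Fin 2 → ℂ) : J m → PL S → ℕ → ℂ
  | none => fun _ _ => 1
  | some c => fun v k => tr c.2 (α c.1 v) k

/-- What is used of the unitary cuspidal automorphic representations `π_1, ..., π_m` of `GL_2` over `K`, unramified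
outside `S` (up to twists), with Satake parameters `α_{i,v}`, and of the group `X` of Hecke characters `χ ∘ g`, if the
lifts `Ad π_i`, `A⁴ π_i` are cuspidal and none of these `2 m` lifts is a twist, by a character of `X`, of another one or,
by a nontrivial character, of itself. -/
structure HeckeFamily (X : Subgroup (G →ₜ* Circle)) (g : PL S → G) (α : Fin m → PL S → Fin 2 → ℂ) : Prop where
  /-- the characters of `X` separate the points of `G` -/
  separates : ∀ x y : G, x ≠ y → ∃ χ ∈ X, χ x ≠ χ y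
  /-- the local components are unitary -/
  unitary : ∀ i v, Unitary (α i v)
  /-- absolute convergence of `L(s, Π × Π~)` for `Re s > 1` (Jacquet, Shalika) -/
  summable : ∀ (i : Fin m) (Y : Fin 2) (σ : ℝ), 1 < σ → Summable fun x : PL S × ℕ =>
    ‖tr Y (α i x.1) (x.2 + 1)‖ ^ 2 / ((x.2 : ℝ) + 1) * (((qq x.1.1 : ℕ) : ℝ) ^ (-σ)) ^ (x.2 + 1)
  /-- `L(s, (Π ⊗ χ) × Π'~)` is holomorphic and nonzero at `s = 1`, except for a simple pole if `χ = 1` and
  `Π = Π'`; here `Π` and `Π'` are the trivial representation or one of the lifts -/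
  lfun : ∀ χ ∈ X, ∀ c d : J m, ∃ F : ℂ → ℂ, AnalyticAt ℂ F 1 ∧ F 1 ≠ 0 ∧ ∀ s : ℂ, 1 < s.re →
    F s = (open scoped Classical in if χ = 1 ∧ c = d then s - 1 else 1) *
      Complex.exp (logL (fun v k => (χ (g v) : ℂ) ^ k * (ptr α c v k * (starRingEnd ℂ) (ptr α d v k))) s)

variable {X : Subgroup (G →ₜ* Circle)} {g : PL S → G} {α : Fin m → PL S → Fin 2 → ℂ}

theorem ptr_eq (h : HeckeFamily X g α) (c : J m) (v : PL S) (k : ℕ) : ptr α c v k = (tt α c v k : ℂ) := by
  cases c with
  | none => simp [ptr, tt]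
  | some c => exact tr_eq (h.unitary _ _) _ _

theorem conj_ptr (h : HeckeFamily X g α) (c : J m) (v : PL S) (k : ℕ) :
    (starRingEnd ℂ) (ptr α c v k) = (tt α c v k : ℂ) := by
  rw [ptr_eq h, Complex.conj_ofReal]

theorem summable_sq (h : HeckeFamily X g α) (c : J m) {σ : ℝ} (hσ : 1 < σ) :
    Summable fun x : PL S × ℕ => tt α c x.1 (x.2 + 1) ^ 2 * wt σ x := by
  cases c with
  | none =>
    refine (summable_wt hσ).congr fun x => ?_
    simp only [tt, one_pow, one_mul]
  | some c =>
    refine (h.summable c.1 c.2 σ hσ).congr fun x => ?_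
    simp only [tt]
    rw [tr_eq (h.unitary _ _), Complex.norm_real, Real.norm_eq_abs, sq_abs]
    unfold wt
    ring

theorem summable_pair (h : HeckeFamily X g α) (c d : J m) {σ : ℝ} (hσ : 1 < σ) :
    Summable fun x : PL S × ℕ => |tt α c x.1 (x.2 + 1) * tt α d x.1 (x.2 + 1)| * wt σ x := by
  refine Summable.of_nonneg_of_le (fun x => mul_nonneg (abs_nonneg _) (wt_nonneg _ _)) (fun x => ?_)
    ((summable_sq h c hσ).add (summable_sq h d hσ))
  rw [← add_mul]
  refine mul_le_mul_of_nonneg_right ?_ (wt_nonneg σ x)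
  rw [abs_le]
  constructor <;> nlinarith [sq_nonneg (tt α c x.1 (x.2 + 1) + tt α d x.1 (x.2 + 1)),
    sq_nonneg (tt α c x.1 (x.2 + 1) - tt α d x.1 (x.2 + 1))]

variable [T2Space G] [MeasurableSpace G] [BorelSpace G]

/-- the linear system of the products of two traces -/
theorem lin (h : HeckeFamily X g α) : Lin X (𝓝[>] (1 : ℝ)) (fun σ (v : PL S) k => wt σ (v, k)) (Z S)
    (fun k => k + 1) g (fun (c : J m × J m) v k => tt α c.1 v (k + 1) * tt α c.2 v (k + 1))
    (fun c => if c.1 = c.2 then 1 else 0) := by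
  classical
  refine ⟨h.separates, fun σ v k => wt_nonneg _ _, (Z_tendsto S).eventually_gt_atTop 0, rfl, fun c => ?_,
    fun χ hχ c => ?_⟩
  · filter_upwards [self_mem_nhdsWithin] with σ hσ
    refine Summable.of_norm_bounded (summable_pair h c.1 c.2 hσ) fun x => ?_
    rw [norm_mul, Real.norm_of_nonneg (wt_nonneg σ (x.1, x.2)), Real.norm_eq_abs]
  · have hsum : ∀ σ : ℝ, 1 < σ → Summable fun x : PL S × ℕ =>
        ‖(fun (v : PL S) (k : ℕ) => (χ (g v) : ℂ) ^ k * (ptr α c.1 v k * (starRingEnd ℂ) (ptr α c.2 v k)))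
          x.1 (x.2 + 1)‖ * wt σ x := by
      intro σ hσ
      refine (summable_pair h c.1 c.2 hσ).congr fun x => ?_
      dsimp only
      rw [norm_mul, norm_char_pow, one_mul, conj_ptr h, ptr_eq h, ← Complex.ofReal_mul, Complex.norm_real,
        Real.norm_eq_abs]
    have h1 := ratio_limit (S := S) (χ = 1 ∧ c.1 = c.2)
      (logL_bdd (f := fun v k => (χ (g v) : ℂ) ^ k * (ptr α c.1 v k * (starRingEnd ℂ) (ptr α c.2 v k)))
        hsum (χ = 1 ∧ c.1 = c.2) (by
          obtain ⟨F, h2, h3, h4⟩ := h.lfun χ hχ c.1 c.2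
          refine ⟨F, h2, h3, fun s hs => ?_⟩
          rw [h4 s hs]))
    have e1 : (if χ = 1 ∧ c.1 = c.2 then (1 : ℂ) else 0) =
        (if χ = 1 then (((if c.1 = c.2 then (1 : ℝ) else 0) : ℝ) : ℂ) else 0) := by
      by_cases hc : χ = 1
      · by_cases hd : c.1 = c.2
        · simp [hc, hd]
        · simp [hc, hd]
      · simp [hc]
    rw [e1] at h1
    refine h1.congr fun σ => ?_
    congr 1
    rw [logL_complex]
    refine tsum_congr fun x => ?_
    rw [conj_ptr h, ptr_eq h]
    push_cast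
    ring

theorem comb_prod (a b : J m → ℝ) (v : PL S) (k : ℕ) :
    comb (fun (c : J m × J m) (v : PL S) k => tt α c.1 v (k + 1) * tt α c.2 v (k + 1))
      (fun c => a c.1 * b c.2) v k =
      (∑ c, a c * tt α c v (k + 1)) * ∑ c, b c * tt α c v (k + 1) := by
  unfold comb
  rw [Finset.sum_mul_sum, Fintype.sum_prod_type]
  refine Finset.sum_congr rfl fun c _ => Finset.sum_congr rfl fun d _ => ?_
  ring

theorem mean_prod (a b : J m → ℝ) :
    ∑ c : J m × J m, (a c.1 * b c.2) * (if c.1 = c.2 then (1 : ℝ) else 0) = ∑ c, a c * b c := by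
  rw [Fintype.sum_prod_type]
  refine Finset.sum_congr rfl fun c _ => ?_
  simp

section Main

variable (μ : MeasureTheory.Measure G) [μ.IsMulLeftInvariant] [MeasureTheory.IsProbabilityMeasure μ]
  [μ.OuterRegular] {U : Set G}

/-- the density of the class `U` -/
theorem class_density (h : HeckeFamily X g α) (hU : MeasurableSet U) (hf : μ (frontier U) = 0) :
    Tendsto (fun σ => ZU (fun σ (v : PL S) k => wt σ (v, k)) g U σ / Z S σ) (𝓝[>] 1) (𝓝 (μ.real U)) := by
  classical
  refine ZU_limit h.separates (fun χ hχ => ?_) μ hU hf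
  obtain ⟨F, h2, h3, h4⟩ := h.lfun χ hχ none none
  refine ⟨F, h2, h3, fun s hs => ?_⟩
  rw [h4 s hs]
  have e : (fun (v : PL S) (k : ℕ) => (χ (g v) : ℂ) ^ k * (ptr α none v k * (starRingEnd ℂ) (ptr α none v k))) =
      fun (v : PL S) (k : ℕ) => (χ (g v) : ℂ) ^ k := by
    funext v k
    simp [ptr]
  rw [e]
  by_cases hc : χ = 1
  · simp [hc]
  · simp [hc]

/-- the relative upper Dirichlet density of the places with `P` in the class `U` is at most `c` -/
def RelLe (g : PL S → G) (U : Set G) (P : PL S → Prop) (c : ℝ) : Prop :=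
  ∀ ε : ℝ, 0 < ε → ∀ᶠ σ : ℝ in 𝓝[>] 1,
    ∑' v : PL S, (open scoped Classical in if P v then ind U (g v) * (qq v.1 : ℝ) ^ (-σ) else 0) ≤
      (c + ε) * ∑' v : PL S, ind U (g v) * (qq v.1 : ℝ) ^ (-σ)

theorem set_bound (h : HeckeFamily X g α) (hU : MeasurableSet U) (hf : μ (frontier U) = 0)
    (h0 : 0 < μ.real U) (a b : J m → ℝ)
    (hpos : ∀ (v : PL S) (k : ℕ), 0 ≤ (∑ c, a c * tt α c v (k + 1)) * ∑ c, b c * tt α c v (k + 1))
    {M δ : ℝ} (hM : 0 < M) (hδ : ∑ c, a c * b c = δ * M) (P : PL S → Prop)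
    (hP : ∀ v, P v → M ≤ (∑ c, a c * tt α c v 1) * ∑ c, b c * tt α c v 1) : RelLe g U P δ := by
  classical
  intro ε hε
  have h1 := (lin h).density (fun c => a c.1 * b c.2) (fun v k => by rw [comb_prod]; exact hpos v k)
    μ hU hf h0 (class_density μ h hU hf) (by
      filter_upwards [self_mem_nhdsWithin] with σ hσ
      refine Summable.of_nonneg_of_le (fun v => mul_nonneg (ind_nonneg _ _) (wt_nonneg _ _))
        (fun v => mul_le_of_le_one_left (wt_nonneg _ _) (ind_le_one _ _)) ?_
      exact (Pool.Agent.TH861.GL3.summable_qq (S := S) (σ := σ) hσ).congr fun v => (wt_zero σ v).symm)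
    hM P (fun v hv => by rw [comb_prod]; exact hP v hv) hε
  rw [mean_prod, hδ, mul_div_assoc, div_self hM.ne', mul_one] at h1
  filter_upwards [h1] with σ h2
  simp only [ZU, wt_zero] at h2
  exact h2

/-- **All representations at once, large eigenvalues.** -/
theorem all_large (h : HeckeFamily X g α) (hU : MeasurableSet U) (hf : μ (frontier U) = 0)
    (h0 : 0 < μ.real U) {y : Fin m → ℝ} (hy : ∀ i, 3 ≤ y i) :
    RelLe g U (fun v => ∀ i, y i ≤ ‖α i v 0 + α i v 1‖ ^ 2)
      (1 / (1 + ∑ i, ((y i - 1) ^ 2 + (y i ^ 2 - 3 * y i + 1) ^ 2))) := by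
  set k : Fin m → ℝ := fun i => (y i - 1) ^ 2 + (y i ^ 2 - 3 * y i + 1) ^ 2 with hk
  have hk0 : 0 ≤ ∑ i, k i := Finset.sum_nonneg fun i _ => by rw [hk]; positivity
  have hk1 : 0 < 1 + ∑ i, k i := by linarith
  refine set_bound μ h hU hf h0 (cf 1 (fun i => y i - 1) (fun i => y i ^ 2 - 3 * y i + 1))
    (cf 1 (fun i => y i - 1) (fun i => y i ^ 2 - 3 * y i + 1)) (fun v n => mul_self_nonneg _)
    (M := (1 + ∑ i, k i) ^ 2) (by positivity) ?_ _ (fun v hv => ?_)
  · rw [cf_mul]
    have : ∀ i, (y i - 1) * (y i - 1) + (y i ^ 2 - 3 * y i + 1) * (y i ^ 2 - 3 * y i + 1) = k i := fun i => by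
      rw [hk]; ring
    rw [Finset.sum_congr rfl fun i _ => this i]
    field_simp
  · rw [cf_tt, ← pow_two]
    apply pow_le_pow_left₀ hk1.le
    have h1 : ∑ i, k i ≤ ∑ i, ((y i - 1) * rt 0 (α i v) 1 + (y i ^ 2 - 3 * y i + 1) * rt 1 (α i v) 1) := by
      refine Finset.sum_le_sum fun i _ => ?_
      have h2 := hv i
      have h3 := norm_sq (h.unitary i v)
      have h4 := rt_sq (h.unitary i v) 1
      have h5 := hy i
      rw [h3] at h2
      set A := rt 0 (α i v) 1
      set B := rt 1 (α i v) 1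
      have hB : B = A ^ 2 - A - 1 := by linarith
      have hA : y i - 1 ≤ A := by linarith
      rw [hk, hB]
      dsimp only
      have e1 : (y i - 1) * A + (y i ^ 2 - 3 * y i + 1) * (A ^ 2 - A - 1) -
          ((y i - 1) ^ 2 + (y i ^ 2 - 3 * y i + 1) ^ 2) =
          (A - (y i - 1)) * ((y i - 1) + (y i ^ 2 - 3 * y i + 1) * (A + (y i - 1) - 1)) := by ring
      have h6 : 0 ≤ y i ^ 2 - 3 * y i + 1 := by nlinarith
      have h7 : 0 ≤ (A - (y i - 1)) * ((y i - 1) + (y i ^ 2 - 3 * y i + 1) * (A + (y i - 1) - 1)) := by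
        refine mul_nonneg (by linarith) (add_nonneg (by linarith) (mul_nonneg h6 (by linarith)))
      linarith
    linarith

theorem four_le (h : HeckeFamily X g α) {i : Fin m} {v : PL S} (hn : ¬ Tempered (α i v)) :
    4 ≤ ‖α i v 0 + α i v 1‖ ^ 2 := by
  rw [norm_sq (h.unitary i v)]
  have := (rt_large (h.unitary i v) hn 1).1
  linarith

theorem RelLe.mono {P Q : PL S → Prop} {c : ℝ} (h : RelLe g U Q c) (hPQ : ∀ v, P v → Q v) :
    RelLe g U P c := by
  classical
  intro ε hε
  filter_upwards [h ε hε, self_mem_nhdsWithin] with σ h1 h2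
  refine le_trans ?_ h1
  have hs := Pool.Agent.TH861.GL3.summable_qq (S := S) (σ := σ) h2
  have hq : ∀ v : PL S, 0 ≤ ind U (g v) * (qq v.1 : ℝ) ^ (-σ) := fun v =>
    mul_nonneg (ind_nonneg _ _) (by positivity)
  have hs1 : Summable fun v : PL S => ind U (g v) * (qq v.1 : ℝ) ^ (-σ) :=
    Summable.of_nonneg_of_le hq (fun v => mul_le_of_le_one_left (by positivity) (ind_le_one _ _)) hs
  have hs2 : ∀ R : PL S → Prop, Summable fun v : PL S =>
      if R v then ind U (g v) * (qq v.1 : ℝ) ^ (-σ) else 0 := fun R => by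
    refine Summable.of_nonneg_of_le (fun v => ?_) (fun v => ?_) hs1
    · split_ifs
      · exact hq v
      · exact le_rfl
    · split_ifs
      · exact le_rfl
      · exact hq v
  refine Summable.tsum_le_tsum (fun v => ?_) (hs2 P) (hs2 Q)
  by_cases hP : P v
  · rw [if_pos hP, if_pos (hPQ v hP)]
  · rw [if_neg hP]
    split_ifs
    · exact hq v
    · exact le_rfl

/-- **All representations at once.** -/
theorem all_nontempered (h : HeckeFamily X g α) (hU : MeasurableSet U) (hf : μ (frontier U) = 0)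
    (h0 : 0 < μ.real U) : RelLe g U (fun v => ∀ i, ¬ Tempered (α i v)) (1 / (34 * (m : ℝ) + 1)) := by
  have h1 := all_large μ h hU hf h0 (y := fun _ => 4) (fun _ => by norm_num)
  have e : (1 : ℝ) + ∑ _i : Fin m, (((4 : ℝ) - 1) ^ 2 + (4 ^ 2 - 3 * 4 + 1) ^ 2) = 34 * (m : ℝ) + 1 := by
    rw [Finset.sum_const, Finset.card_univ, Fintype.card_fin, nsmul_eq_mul]
    ring
  rw [e] at h1
  exact h1.mono fun v hv i => four_le h (hv i)

/-- **Two representations.** -/
theorem two_nontempered (h : HeckeFamily X g α) (hU : MeasurableSet U) (hf : μ (frontier U) = 0)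
    (h0 : 0 < μ.real U) {i j : Fin m} (hij : i ≠ j) :
    RelLe g U (fun v => ¬ Tempered (α i v) ∧ ¬ Tempered (α j v)) (1 / 100) := by
  have hs : ∀ (l : Fin m) (v : PL S) (k : ℕ),
      ∑ c, cf 10 (fun n => if n = l then 15 else 0) (fun n => if n = l then 9 else 0) c * tt α c v k =
        (3 * rt 0 (α l v) k + 1) ^ 2 := by
    intro l v k
    rw [cf_tt, ← rt_sq' (h.unitary l v)]
    simp only [ite_mul, zero_mul]
    rw [Finset.sum_add_distrib, Finset.sum_ite_eq', Finset.sum_ite_eq']
    simp only [Finset.mem_univ, if_true]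
    ring
  refine set_bound μ h hU hf h0 (cf 10 (fun n => if n = i then 15 else 0) (fun n => if n = i then 9 else 0))
    (cf 10 (fun n => if n = j then 15 else 0) (fun n => if n = j then 9 else 0))
    (fun v k => ?_) (M := 10000) (by norm_num) ?_ _ (fun v hv => ?_)
  · rw [hs, hs]
    positivity
  · rw [cf_mul]
    have : ∀ n : Fin m, (if n = i then (15 : ℝ) else 0) * (if n = j then (15 : ℝ) else 0) +
        (if n = i then (9 : ℝ) else 0) * (if n = j then (9 : ℝ) else 0) = 0 := by
      intro n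
      by_cases h1 : n = i
      · rw [if_neg (fun h2 : n = j => hij (h1.symm.trans h2)),
          if_neg (fun h2 : n = j => hij (h1.symm.trans h2))]
        ring
      · rw [if_neg h1, if_neg h1]
        ring
    rw [Finset.sum_congr rfl fun n _ => this n, Finset.sum_const_zero]
    norm_num
  · rw [hs, hs]
    have h1 := (rt_large (h.unitary i v) hv.1 1).1
    have h2 := (rt_large (h.unitary j v) hv.2 1).1
    have h3 : (100 : ℝ) ≤ (3 * rt 0 (α i v) 1 + 1) ^ 2 := by nlinarith
    have h4 : (100 : ℝ) ≤ (3 * rt 0 (α j v) 1 + 1) ^ 2 := by nlinarith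
    nlinarith

end Main

end Pool.Agent.Run7.h731.HK
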