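import Pool.Agent.Run7.h731.HK.Fam

/-!
# One representation, and the places at which one of several representations is not tempered
-/

set_option autoImplicit false
set_option linter.unusedSectionVars false

namespace Pool.Agent.Run7.h731.HK

open NumberField IsDedekindDomain Filter Topology
open Pool.Agent.TH861.GL3 (PL qq)
open _root_.Run7.h911.RC (wt wt_nonneg wt_zero summable_wt logL Z Z_bdd Z_tendsto J tr tt rt tr_eq conj_tr
  rt_sq rt_sq' rt_large Unitary Tempered cf cf_tt cf_mul norm_sq)

variable {K : Type*} [Field K] [NumberField K] {S : Finset (HeightOneSpectrum (𝓞 K))}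
variable {G : Type*} [CommGroup G] [TopologicalSpace G] [IsTopologicalGroup G] [CompactSpace G]
  {m : ℕ} {X : Subgroup (G →ₜ* Circle)} {g : PL S → G} {α : Fin m → PL S → Fin 2 → ℂ}
variable [T2Space G] [MeasurableSpace G] [BorelSpace G]

theorem summable_sel (U : Set G) (P : PL S → Prop) [DecidablePred P] {σ : ℝ} (h2 : 1 < σ) :
    Summable fun v : PL S => if P v then ind U (g v) * (qq v.1 : ℝ) ^ (-σ) else 0 := by
  have hs := Pool.Agent.TH861.GL3.summable_qq (S := S) (σ := σ) h2
  have hq : ∀ v : PL S, 0 ≤ ind U (g v) * (qq v.1 : ℝ) ^ (-σ) := fun v =>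
    mul_nonneg (ind_nonneg _ _) (by positivity)
  have hs1 : Summable fun v : PL S => ind U (g v) * (qq v.1 : ℝ) ^ (-σ) :=
    Summable.of_nonneg_of_le hq (fun v => mul_le_of_le_one_left (by positivity) (ind_le_one _ _)) hs
  refine Summable.of_nonneg_of_le (fun v => ?_) (fun v => ?_) hs1
  · split_ifs
    · exact hq v
    · exact le_rfl
  · split_ifs
    · exact le_rfl
    · exact hq v

theorem RelLe.or {U : Set G} {P Q : PL S → Prop} {c d : ℝ} (h : RelLe g U P c) (h' : RelLe g U Q d) :
    RelLe g U (fun v => P v ∨ Q v) (c + d) := by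
  classical
  intro ε hε
  filter_upwards [h (ε / 2) (half_pos hε), h' (ε / 2) (half_pos hε), self_mem_nhdsWithin] with σ h1 h2 h3
  have hq : ∀ v : PL S, 0 ≤ ind U (g v) * (qq v.1 : ℝ) ^ (-σ) := fun v =>
    mul_nonneg (ind_nonneg _ _) (by positivity)
  have h4 : ∑' v : PL S, (if P v ∨ Q v then ind U (g v) * (qq v.1 : ℝ) ^ (-σ) else 0) ≤
      ∑' v : PL S, ((if P v then ind U (g v) * (qq v.1 : ℝ) ^ (-σ) else 0) +
        (if Q v then ind U (g v) * (qq v.1 : ℝ) ^ (-σ) else 0)) := by
    refine Summable.tsum_le_tsum (fun v => ?_) (summable_sel U _ h3)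
      ((summable_sel U _ h3).add (summable_sel U _ h3))
    have h5 := hq v
    by_cases hP : P v
    · by_cases hQ : Q v
      · simp only [hP, hQ, or_self, if_true]
        linarith
      · simp [hP, hQ]
    · by_cases hQ : Q v
      · simp [hP, hQ]
      · simp [hP, hQ]
  rw [(summable_sel U P h3).tsum_add (summable_sel U Q h3)] at h4
  have h5 : (c + d + ε) * ∑' v : PL S, ind U (g v) * (qq v.1 : ℝ) ^ (-σ) =
      (c + ε / 2) * (∑' v : PL S, ind U (g v) * (qq v.1 : ℝ) ^ (-σ)) +
      (d + ε / 2) * ∑' v : PL S, ind U (g v) * (qq v.1 : ℝ) ^ (-σ) := by ring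
  rw [h5]
  have h6 := add_le_add h1 h2
  refine le_trans (le_of_eq ?_) (h4.trans h6)
  congr 1
  funext v
  congr

theorem RelLe.finset {U : Set G} {P : Fin m → PL S → Prop} {c : ℝ} (h : ∀ i, RelLe g U (P i) c)
    (s : Finset (Fin m)) : RelLe g U (fun v => ∃ i ∈ s, P i v) (s.card * c) := by
  classical
  induction s using Finset.induction_on with
  | empty =>
    intro ε hε
    filter_upwards [self_mem_nhdsWithin] with σ h1
    have e : ∀ v : PL S, (if ∃ i ∈ (∅ : Finset (Fin m)), P i v then ind U (g v) * (qq v.1 : ℝ) ^ (-σ) else 0) = 0 := by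
      intro v
      simp
    have e2 : ∑' v : PL S, (if ∃ i ∈ (∅ : Finset (Fin m)), P i v then ind U (g v) * (qq v.1 : ℝ) ^ (-σ) else 0) =
        0 := by
      rw [tsum_congr e, tsum_zero]
    rw [Finset.card_empty, Nat.cast_zero, zero_mul, zero_add]
    have h2 : 0 ≤ ∑' v : PL S, ind U (g v) * (qq v.1 : ℝ) ^ (-σ) :=
      tsum_nonneg fun v => mul_nonneg (ind_nonneg _ _) (by positivity)
    refine (le_of_eq ?_).trans (mul_nonneg hε.le h2)
    convert e2
  | insert i s hi ih =>
    have h1 := (h i).or ih
    have e : ((insert i s).card : ℝ) * c = c + (s.card : ℝ) * c := by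
      rw [Finset.card_insert_of_notMem hi]
      push_cast
      ring
    rw [e]
    refine h1.mono fun v hv => ?_
    obtain ⟨j, hj, hv⟩ := hv
    rcases Finset.mem_insert.1 hj with h2 | h2
    · left
      rw [← h2]
      exact hv
    · right
      exact ⟨j, h2, hv⟩

section Main

variable (μ : MeasureTheory.Measure G) [μ.IsMulLeftInvariant] [MeasureTheory.IsProbabilityMeasure μ]
  [μ.OuterRegular] {U : Set G}

/-- **One representation.** -/
theorem one_nontempered (h : HeckeFamily X g α) (hU : MeasurableSet U) (hf : μ (frontier U) = 0)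
    (h0 : 0 < μ.real U) (i : Fin m) : RelLe g U (fun v => ¬ Tempered (α i v)) (1 / 35) := by
  have hs : ∀ (v : PL S) (k : ℕ),
      ∑ c, cf 1 (fun n => if n = i then 3 else 0) (fun n => if n = i then 5 else 0) c * tt α c v k =
        1 + (3 * rt 0 (α i v) k + 5 * rt 1 (α i v) k) := by
    intro v k
    rw [cf_tt]
    simp only [ite_mul, zero_mul]
    rw [Finset.sum_add_distrib, Finset.sum_ite_eq', Finset.sum_ite_eq']
    simp only [Finset.mem_univ, if_true]
  refine set_bound μ h hU hf h0 (cf 1 (fun n => if n = i then 3 else 0) (fun n => if n = i then 5 else 0))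
    (cf 1 (fun n => if n = i then 3 else 0) (fun n => if n = i then 5 else 0))
    (fun v k => mul_self_nonneg _) (M := 1225) (by norm_num) ?_ _ (fun v hv => ?_)
  · rw [cf_mul]
    have : ∀ n : Fin m, (if n = i then (3 : ℝ) else 0) * (if n = i then (3 : ℝ) else 0) +
        (if n = i then (5 : ℝ) else 0) * (if n = i then (5 : ℝ) else 0) = if n = i then 34 else 0 := by
      intro n
      by_cases h1 : n = i
      · simp only [if_pos h1]
        norm_num
      · simp only [if_neg h1]
        norm_num
    rw [Finset.sum_congr rfl fun n _ => this n, Finset.sum_ite_eq']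
    simp only [Finset.mem_univ, if_true]
    norm_num
  · rw [hs]
    have h1 := (rt_large (h.unitary i v) hv 1).1
    have h2 := (rt_large (h.unitary i v) hv 1).2
    nlinarith

/-- **Simultaneous temperedness.** -/
theorem some_nontempered (h : HeckeFamily X g α) (hU : MeasurableSet U) (hf : μ (frontier U) = 0)
    (h0 : 0 < μ.real U) : RelLe g U (fun v => ∃ i, ¬ Tempered (α i v)) ((m : ℝ) / 35) := by
  have h1 := RelLe.finset (g := g) (U := U) (P := fun i v => ¬ Tempered (α i v)) (c := 1 / 35)
    (fun i => one_nontempered μ h hU hf h0 i) Finset.univ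
  rw [Finset.card_univ, Fintype.card_fin, mul_one_div] at h1
  exact h1.mono fun v hv => by
    obtain ⟨i, hi⟩ := hv
    exact ⟨i, Finset.mem_univ _, hi⟩

end Main

end Pool.Agent.Run7.h731.HK
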