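import Pool.Agent.Run7.h731.HK.Fam3

/-!
# Norms and traces of Hecke eigenvalues
-/

set_option autoImplicit false
set_option linter.unusedSectionVars false

namespace Pool.Agent.Run7.h731.HK

open NumberField IsDedekindDomain Filter Topology
open Pool.Agent.TH861.GL3 (PL qq)
open _root_.Run7.h911.RC (tr rt tr_eq Unitary Tempered norm_sq)

variable {K : Type*} [Field K] [NumberField K] {S : Finset (HeightOneSpectrum (𝓞 K))}
variable {G : Type*} [CommGroup G] [TopologicalSpace G] [IsTopologicalGroup G] [CompactSpace G]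
  {m : ℕ} {X : Subgroup (G →ₜ* Circle)} {g : PL S → G} {α : Fin m → PL S → Fin 2 → ℂ}

theorem sq_div (a : Fin 2 → ℂ) (h : Unitary a) :
    (a 0 + a 1) ^ 2 / (a 0 * a 1) = ((‖a 0 + a 1‖ ^ 2 : ℝ) : ℂ) := by
  have h0 := h.1 0
  have h1 := h.1 1
  have h2 := tr_eq h 0 1
  rw [norm_sq h]
  push_cast
  rw [← h2]
  unfold tr
  rw [if_pos rfl]
  field_simp
  ring

theorem amgm (z : Fin m → ℝ) (hz : ∀ i, 0 ≤ z i) (hm : 0 < m) : ∏ i, z i ≤ ((∑ i, z i) / m) ^ m := by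
  have hmr : (0 : ℝ) < m := by exact_mod_cast hm
  have h1 := Real.geom_mean_le_arith_mean_weighted Finset.univ (fun _ : Fin m => (1 : ℝ) / m) z
    (fun _ _ => by positivity) (by
      rw [Finset.sum_const, Finset.card_univ, Fintype.card_fin, nsmul_eq_mul]
      field_simp) (fun i _ => hz i)
  have h2 : ∑ i, (1 : ℝ) / m * z i = (∑ i, z i) / m := by
    rw [← Finset.mul_sum]
    ring
  rw [h2] at h1
  have h3 := pow_le_pow_left₀ (Finset.prod_nonneg fun i _ => Real.rpow_nonneg (hz i) _) h1 m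
  refine le_trans (le_of_eq ?_) h3
  rw [← Finset.prod_pow]
  refine Finset.prod_congr rfl fun i _ => ?_
  rw [← Real.rpow_natCast, ← Real.rpow_mul (hz i), one_div_mul_cancel hmr.ne', Real.rpow_one]

section

variable {F : Type*} [Field F] [NumberField F] {u : PL S → F} (e : Fin m ≃ (F →ₐ[ℚ] ℂ))

theorem trace_eq (h : HeckeFamily X g α)
    (hu : ∀ i v, e i (u v) = (qq v.1 : ℂ) * ((α i v 0 + α i v 1) ^ 2 / (α i v 0 * α i v 1))) (v : PL S) :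
    ((Algebra.trace ℚ F (u v) : ℚ) : ℝ) = (qq v.1 : ℝ) * ∑ i, ‖α i v 0 + α i v 1‖ ^ 2 := by
  have h1 := trace_eq_sum_embeddings (K := ℚ) (L := F) ℂ (x := u v)
  rw [← Equiv.sum_comp e] at h1
  have h2 : ∀ i, e i (u v) = (((qq v.1 : ℝ) * ‖α i v 0 + α i v 1‖ ^ 2 : ℝ) : ℂ) := fun i => by
    rw [hu, sq_div _ (h.unitary i v)]
    push_cast
    ring
  rw [Finset.sum_congr rfl fun i _ => h2 i] at h1
  have h3 : ((((Algebra.trace ℚ F (u v) : ℚ) : ℝ)) : ℂ) =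
      (((qq v.1 : ℝ) * ∑ i, ‖α i v 0 + α i v 1‖ ^ 2 : ℝ) : ℂ) := by
    rw [Finset.mul_sum, Complex.ofReal_sum, ← h1]
    simp
  exact_mod_cast h3

theorem norm_eq (h : HeckeFamily X g α)
    (hu : ∀ i v, e i (u v) = (qq v.1 : ℂ) * ((α i v 0 + α i v 1) ^ 2 / (α i v 0 * α i v 1))) (v : PL S) :
    ((Algebra.norm ℚ (u v) : ℚ) : ℝ) = ∏ i, ((qq v.1 : ℝ) * ‖α i v 0 + α i v 1‖ ^ 2) := by
  have h1 := Algebra.norm_eq_prod_embeddings ℚ ℂ (u v)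
  rw [← Equiv.prod_comp e] at h1
  have h2 : ∀ i, e i (u v) = (((qq v.1 : ℝ) * ‖α i v 0 + α i v 1‖ ^ 2 : ℝ) : ℂ) := fun i => by
    rw [hu, sq_div _ (h.unitary i v)]
    push_cast
    ring
  rw [Finset.prod_congr rfl fun i _ => h2 i] at h1
  have h3 : ((((Algebra.norm ℚ (u v) : ℚ) : ℝ)) : ℂ) =
      ((∏ i, ((qq v.1 : ℝ) * ‖α i v 0 + α i v 1‖ ^ 2) : ℝ) : ℂ) := by
    rw [Complex.ofReal_prod, ← h1]
    simp
  exact_mod_cast h3

theorem norm_le (h : HeckeFamily X g α) (hm : 0 < m)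
    (hu : ∀ i v, e i (u v) = (qq v.1 : ℂ) * ((α i v 0 + α i v 1) ^ 2 / (α i v 0 * α i v 1))) (v : PL S)
    {y : ℝ} (hv : (y * (qq v.1 : ℝ)) ^ m ≤ ((Algebra.norm ℚ (u v) : ℚ) : ℝ)) :
    (m : ℝ) * y ≤ ∑ i, ‖α i v 0 + α i v 1‖ ^ 2 := by
  have hmr : (0 : ℝ) < m := by exact_mod_cast hm
  have hq : (0 : ℝ) < (qq v.1 : ℝ) := Pool.Agent.TH861.GL3.qq_pos v.1
  rw [norm_eq e h hu] at hv
  have h1 := amgm (fun i => (qq v.1 : ℝ) * ‖α i v 0 + α i v 1‖ ^ 2) (fun i => by positivity) hm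
  have h2 := hv.trans h1
  have h3 : y * (qq v.1 : ℝ) ≤ (∑ i, (qq v.1 : ℝ) * ‖α i v 0 + α i v 1‖ ^ 2) / m := by
    refine le_of_pow_le_pow_left₀ hm.ne' ?_ h2
    exact div_nonneg (Finset.sum_nonneg fun i _ => by positivity) hmr.le
  rw [← Finset.mul_sum, le_div_iff₀ hmr] at h3
  have h4 : (qq v.1 : ℝ) * ((m : ℝ) * y) ≤ (qq v.1 : ℝ) * ∑ i, ‖α i v 0 + α i v 1‖ ^ 2 := by
    calc (qq v.1 : ℝ) * ((m : ℝ) * y) = y * (qq v.1 : ℝ) * m := by ring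
      _ ≤ _ := h3
  exact le_of_mul_le_mul_left h4 hq

variable [T2Space G] [MeasurableSpace G] [BorelSpace G]
variable (μ : MeasureTheory.Measure G) [μ.IsMulLeftInvariant] [MeasureTheory.IsProbabilityMeasure μ]
  [μ.OuterRegular] {U : Set G}

theorem norm_bound (h : HeckeFamily X g α) (hU : MeasurableSet U) (hf : μ (frontier U) = 0)
    (h0 : 0 < μ.real U) (hm : 0 < m)
    (hu : ∀ i v, e i (u v) = (qq v.1 : ℂ) * ((α i v 0 + α i v 1) ^ 2 / (α i v 0 * α i v 1)))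
    {y : ℝ} (hy : 3 ≤ y) :
    RelLe g U (fun v => (y * (qq v.1 : ℝ)) ^ m ≤ ((Algebra.norm ℚ (u v) : ℚ) : ℝ))
      (1 / (1 + (m : ℝ) * ((y - 1) ^ 2 + (y ^ 2 - 3 * y + 1) ^ 2))) :=
  (mean_large μ h hU hf h0 hm hy).mono fun v hv => norm_le e h hm hu v hv

theorem trace_bound (h : HeckeFamily X g α) (hU : MeasurableSet U) (hf : μ (frontier U) = 0)
    (h0 : 0 < μ.real U) (hm : 0 < m)
    (hu : ∀ i v, e i (u v) = (qq v.1 : ℂ) * ((α i v 0 + α i v 1) ^ 2 / (α i v 0 * α i v 1)))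
    {y : ℝ} (hy : 3 ≤ y) :
    RelLe g U (fun v => (m : ℝ) * y * (qq v.1 : ℝ) ≤ ((Algebra.trace ℚ F (u v) : ℚ) : ℝ))
      (1 / (1 + (m : ℝ) * ((y - 1) ^ 2 + (y ^ 2 - 3 * y + 1) ^ 2))) :=
  (mean_large μ h hU hf h0 hm hy).mono fun v hv => by
    have hq : (0 : ℝ) < (qq v.1 : ℝ) := Pool.Agent.TH861.GL3.qq_pos v.1
    rw [trace_eq e h hu, mul_comm] at hv
    exact le_of_mul_le_mul_left hv hq

theorem trace_dev (h : HeckeFamily X g α) (hU : MeasurableSet U) (hf : μ (frontier U) = 0)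
    (h0 : 0 < μ.real U) (hm : 0 < m)
    (hu : ∀ i v, e i (u v) = (qq v.1 : ℂ) * ((α i v 0 + α i v 1) ^ 2 / (α i v 0 * α i v 1)))
    {δ : ℝ} (hδ : 0 < δ) :
    RelLe g U (fun v => (1 + δ) * ((m : ℝ) * (qq v.1 : ℝ)) ≤ ((Algebra.trace ℚ F (u v) : ℚ) : ℝ))
      (1 / (1 + (m : ℝ) * δ ^ 2)) ∧
    RelLe g U (fun v => ((Algebra.trace ℚ F (u v) : ℚ) : ℝ) ≤ (1 - δ) * ((m : ℝ) * (qq v.1 : ℝ)))
      (1 / (1 + (m : ℝ) * δ ^ 2)) := by
  refine ⟨(mean_dev μ h hU hf h0 hm hδ (Or.inl rfl)).mono fun v hv => ?_,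
    (mean_dev μ h hU hf h0 hm hδ (Or.inr rfl)).mono fun v hv => ?_⟩
  · have hq : (0 : ℝ) < (qq v.1 : ℝ) := Pool.Agent.TH861.GL3.qq_pos v.1
    rw [trace_eq e h hu] at hv
    have h1 : (qq v.1 : ℝ) * ((1 + δ) * m) ≤ (qq v.1 : ℝ) * ∑ i, ‖α i v 0 + α i v 1‖ ^ 2 := by
      calc (qq v.1 : ℝ) * ((1 + δ) * m) = (1 + δ) * ((m : ℝ) * (qq v.1 : ℝ)) := by ring
        _ ≤ _ := hv
    have h2 := le_of_mul_le_mul_left h1 hq
    rw [one_mul]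
    linarith
  · have hq : (0 : ℝ) < (qq v.1 : ℝ) := Pool.Agent.TH861.GL3.qq_pos v.1
    rw [trace_eq e h hu] at hv
    have h1 : (qq v.1 : ℝ) * ∑ i, ‖α i v 0 + α i v 1‖ ^ 2 ≤ (qq v.1 : ℝ) * ((1 - δ) * m) := by
      calc (qq v.1 : ℝ) * ∑ i, ‖α i v 0 + α i v 1‖ ^ 2 ≤ (1 - δ) * ((m : ℝ) * (qq v.1 : ℝ)) := hv
        _ = _ := by ring
    have h2 := le_of_mul_le_mul_left h1 hq
    linarith

end

end Pool.Agent.Run7.h731.HK
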