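import Pool.Agent.Run7.h731.HK.Eq

/-!
# Equidistribution in compact abelian groups: sets with null boundary
-/

set_option autoImplicit false
set_option linter.unusedSectionVars false

namespace Pool.Agent.Run7.h731.HK

open Filter Topology MeasureTheory

variable {G : Type*} [CommGroup G] [TopologicalSpace G] [IsTopologicalGroup G] [CompactSpace G]
  [T2Space G] [MeasurableSpace G] [BorelSpace G] {ι : Type*} {l : Filter ℝ}

/-- the indicator function as a real number -/
noncomputable def ind (U : Set G) (x : G) : ℝ := U.indicator (fun _ => (1 : ℝ)) x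

theorem ind_nonneg (U : Set G) (x : G) : 0 ≤ ind U x := Set.indicator_nonneg (fun _ _ => zero_le_one) x

theorem ind_le_one (U : Set G) (x : G) : ind U x ≤ 1 := by
  unfold ind
  by_cases h : x ∈ U
  · rw [Set.indicator_of_mem h]
  · rw [Set.indicator_of_notMem h]
    exact zero_le_one

theorem ind_mem {U : Set G} {x : G} (h : x ∈ U) : ind U x = 1 := Set.indicator_of_mem h _

theorem ind_notMem {U : Set G} {x : G} (h : x ∉ U) : ind U x = 0 := Set.indicator_of_notMem h _

theorem ind_mono {U V : Set G} (h : U ⊆ V) (x : G) : ind U x ≤ ind V x := by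
  by_cases hx : x ∈ U
  · rw [ind_mem hx, ind_mem (h hx)]
  · rw [ind_notMem hx]
    exact ind_nonneg _ _

theorem ind_compl (U : Set G) (x : G) : ind Uᶜ x = 1 - ind U x := by
  by_cases hx : x ∈ U
  · rw [ind_mem hx, ind_notMem (show x ∉ Uᶜ from fun h => h hx), sub_self]
  · rw [ind_mem (show x ∈ Uᶜ from hx), ind_notMem hx, sub_zero]

/-- the data: the Haar measure, a separating group of characters, weights with the right Fourier coefficients -/
structure Equi (μ : Measure G) (X : Subgroup (G →ₜ* Circle)) (l : Filter ℝ) (w : ℝ → ι → ℝ) (g : ι → G)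
    (c : ℝ) : Prop where
  separates : Separates X
  weights : Wts l w
  coeff : ∀ χ ∈ X, Tendsto (fun σ => ∑' i, (w σ i : ℂ) * (χ (g i) : ℂ)) l
      (𝓝 (open scoped Classical in if χ = 1 then (c : ℂ) else 0))

variable {μ : Measure G} [μ.IsMulLeftInvariant] [IsProbabilityMeasure μ] [μ.OuterRegular]
  {X : Subgroup (G →ₜ* Circle)} {w : ℝ → ι → ℝ} {g : ι → G} {c : ℝ}

theorem Equi.real (h : Equi μ X l w g c) (f : C(G, ℝ)) :
    Tendsto (fun σ => ∑' i, w σ i * f (g i)) l (𝓝 (c * ∫ x, f x ∂μ)) := by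
  have h1 := equi μ h.separates h.weights h.coeff
    (⟨fun x => (f x : ℂ), Complex.continuous_ofReal.comp f.continuous⟩ : C(G, ℂ))
  have h2 := (Complex.continuous_re.tendsto _).comp h1
  have e1 : ((c : ℂ) * ∫ x, (⟨fun x => (f x : ℂ), Complex.continuous_ofReal.comp f.continuous⟩ : C(G, ℂ)) x ∂μ).re =
      c * ∫ x, f x ∂μ := by
    simp only [ContinuousMap.coe_mk]
    rw [integral_complex_ofReal]
    norm_cast
  rw [e1] at h2
  refine h2.congr fun σ => ?_
  simp only [Function.comp, ContinuousMap.coe_mk]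
  have : ∀ i, (w σ i : ℂ) * ((f (g i) : ℝ) : ℂ) = ((w σ i * f (g i) : ℝ) : ℂ) := fun i => by push_cast; rfl
  simp only [this]
  rw [← Complex.ofReal_tsum, Complex.ofReal_re]

theorem Equi.mass (h : Equi μ X l w g c) : Tendsto (fun σ => ∑' i, w σ i) l (𝓝 c) := by
  have h1 := h.real 1
  simpa using h1

theorem summ_ind {w : ι → ℝ} (h0 : ∀ i, 0 ≤ w i) (hs : Summable w) (U : Set G) :
    Summable fun i => w i * ind U (g i) :=
  Summable.of_nonneg_of_le (fun i => mul_nonneg (h0 i) (ind_nonneg _ _))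
    (fun i => mul_le_of_le_one_right (h0 i) (ind_le_one _ _)) hs

theorem Equi.nonneg (h : Equi μ X l w g c) [l.NeBot] : 0 ≤ c := by
  refine ge_of_tendsto h.mass ?_
  filter_upwards [h.weights] with σ hσ
  exact tsum_nonneg hσ.1

theorem Equi.closed (h : Equi μ X l w g c) [l.NeBot] {C : Set G} (hC : IsClosed C) {ε : ℝ} (hε : 0 < ε) :
    ∀ᶠ σ in l, ∑' i, w σ i * ind C (g i) ≤ c * μ.real C + ε := by
  have hc0 := h.nonneg
  set δ : ℝ := ε / (2 * (c + 1)) with hδ
  have hδ0 : 0 < δ := by positivity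
  have h1 : μ C < ENNReal.ofReal (μ.real C + δ) := by
    rw [ENNReal.lt_ofReal_iff_toReal_lt (measure_ne_top μ C)]
    exact lt_add_of_pos_right _ hδ0
  obtain ⟨V, hV, hVo, hV1⟩ := C.exists_isOpen_lt_of_lt _ h1
  have hV2 : μ.real V ≤ μ.real C + δ := by
    have := ENNReal.toReal_mono ENNReal.ofReal_ne_top hV1.le
    rwa [ENNReal.toReal_ofReal (by positivity)] at this
  obtain ⟨f, hf0, hf1, hf⟩ := exists_continuous_zero_one_of_isClosed (isClosed_compl_iff.2 hVo) hC
    (Set.disjoint_left.2 fun x hx hx2 => hx (hV hx2))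
  have h2 : ∫ x, f x ∂μ ≤ μ.real V := by
    have h3 : ∫ x, f x ∂μ ≤ ∫ x, V.indicator (fun _ => (1 : ℝ)) x ∂μ := by
      refine integral_mono (f.continuous.integrable_of_hasCompactSupport (HasCompactSupport.of_compactSpace _))
        ((integrable_const (1 : ℝ)).indicator hVo.measurableSet) fun x => ?_
      by_cases hx : x ∈ V
      · rw [Set.indicator_of_mem hx]
        exact (hf x).2
      · rw [Set.indicator_of_notMem hx]
        exact le_of_eq (hf0 hx)
    rw [integral_indicator_const _ hVo.measurableSet] at h3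
    simpa using h3
  have h4 := (h.real f)
  have h5 : c * ∫ x, f x ∂μ < c * μ.real C + ε := by
    have : c * ∫ x, f x ∂μ ≤ c * (μ.real C + δ) := mul_le_mul_of_nonneg_left (h2.trans hV2) hc0
    have h6 : c * δ < ε := by
      rw [hδ]
      rw [mul_div_assoc', div_lt_iff₀ (by positivity)]
      nlinarith
    linarith
  filter_upwards [h4.eventually_lt_const h5, h.weights] with σ h6 h7
  refine le_trans ?_ h6.le
  refine Summable.tsum_le_tsum (fun i => ?_) (summ_ind h7.1 h7.2 C) ?_
  · refine mul_le_mul_of_nonneg_left ?_ (h7.1 i)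
    by_cases hx : g i ∈ C
    · rw [ind_mem hx]
      exact le_of_eq (hf1 hx).symm
    · rw [ind_notMem hx]
      exact (hf _).1
  · refine Summable.of_nonneg_of_le (fun i => mul_nonneg (h7.1 i) (hf _).1)
      (fun i => mul_le_of_le_one_right (h7.1 i) (hf _).2) h7.2

theorem closure_real {U : Set G} (hf : μ (frontier U) = 0) : μ.real (closure U) = μ.real U := by
  have h1 : μ (closure U) ≤ μ U := by
    calc μ (closure U) = μ (U ∪ frontier U) := by rw [closure_eq_self_union_frontier]
      _ ≤ μ U + μ (frontier U) := measure_union_le _ _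
      _ = μ U := by rw [hf, add_zero]
  have h2 := measure_mono (μ := μ) (subset_closure (s := U))
  unfold Measure.real
  rw [le_antisymm h1 h2]

/-- **Equidistribution (sets with null boundary).** -/
theorem Equi.set (h : Equi μ X l w g c) [l.NeBot] {U : Set G} (hU : MeasurableSet U)
    (hf : μ (frontier U) = 0) : Tendsto (fun σ => ∑' i, w σ i * ind U (g i)) l (𝓝 (c * μ.real U)) := by
  rw [Metric.tendsto_nhds]
  intro ε hε
  have h1 := h.closed (isClosed_closure (s := U)) (half_pos hε)
  have h2 := h.closed (isClosed_closure (s := Uᶜ)) (by positivity : (0 : ℝ) < ε / 4)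
  have h3 := (Metric.tendsto_nhds.1 h.mass) (ε / 4) (by positivity)
  rw [closure_real hf] at h1
  rw [closure_real (by rwa [frontier_compl])] at h2
  filter_upwards [h1, h2, h3, h.weights] with σ h4 h5 h6 h7
  have e1 : ∑' i, w σ i * ind U (g i) ≤ ∑' i, w σ i * ind (closure U) (g i) :=
    Summable.tsum_le_tsum (fun i => mul_le_mul_of_nonneg_left (ind_mono subset_closure _) (h7.1 i))
      (summ_ind h7.1 h7.2 _) (summ_ind h7.1 h7.2 _)
  have e2 : ∑' i, w σ i * ind Uᶜ (g i) ≤ ∑' i, w σ i * ind (closure Uᶜ) (g i) :=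
    Summable.tsum_le_tsum (fun i => mul_le_mul_of_nonneg_left (ind_mono subset_closure _) (h7.1 i))
      (summ_ind h7.1 h7.2 _) (summ_ind h7.1 h7.2 _)
  have e3 : ∑' i, w σ i * ind Uᶜ (g i) = ∑' i, w σ i - ∑' i, w σ i * ind U (g i) := by
    rw [← h7.2.tsum_sub (summ_ind h7.1 h7.2 _)]
    refine tsum_congr fun i => ?_
    rw [ind_compl]
    ring
  have e4 : μ.real Uᶜ = 1 - μ.real U := by
    rw [measureReal_compl hU]
    simp
  rw [Real.dist_eq] at h6 ⊢
  rw [e4] at h5
  have h8 := abs_lt.1 h6
  rw [abs_lt]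
  constructor <;> nlinarith

end Pool.Agent.Run7.h731.HK
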